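import Pool.Agent.Helper71.CH.Inst

/-!
# Project CH: the group `Sp(n,1)`
-/

set_option autoImplicit false
set_option linter.unusedSectionVars false

open Matrix Real Topology Filter
open scoped Quaternion

namespace Pool.Agent.Helper71.CH

section gen

variable {K : Type} [NormedDivisionRing K] [NormedAlgebra ℝ K] [StarRing K] [Hur K] {n : ℕ}

/-- The group of invertible matrices which preserve the form. -/
def Ug (K : Type) [NormedDivisionRing K] [NormedAlgebra ℝ K] [StarRing K] [Hur K] (n : ℕ) :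
    Subgroup (Mat K n)ˣ where
  carrier := {g | ∀ x y : V K n, hf ((g : Mat K n) *ᵥ x) ((g : Mat K n) *ᵥ y) = hf x y}
  mul_mem' {a b} ha hb x y := by
    rw [Units.val_mul, ← Matrix.mulVec_mulVec, ← Matrix.mulVec_mulVec, ha, hb]
  one_mem' x y := by
    rw [Units.val_one, Matrix.one_mulVec, Matrix.one_mulVec]
  inv_mem' {a} ha x y := by
    have h : ∀ z : V K n, (a : Mat K n) *ᵥ (((a⁻¹ : (Mat K n)ˣ) : Mat K n) *ᵥ z) = z := by
      intro z
      rw [Matrix.mulVec_mulVec, Units.mul_inv, Matrix.one_mulVec]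
    rw [← ha, h, h]

/-- The adjoint matrix. -/
def adj (M : Mat K n) : Mat K n := fun i j => (eps i * eps j) • star (M j i)

theorem adj_cont : Continuous (adj : Mat K n → Mat K n) := by
  refine continuous_pi fun i => continuous_pi fun j => ?_
  show Continuous fun M : Mat K n => (eps i * eps j) • star (M j i)
  exact (star_cont.comp (continuous_apply_apply j i)).const_smul (eps i * eps j)

theorem inv_eq_adj (g : Ug K n) : ((g.1⁻¹ : (Mat K n)ˣ) : Mat K n) = adj (g.1 : Mat K n) := by
  ext i j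
  exact inv_entry g.2 (Units.mul_inv _) i j

theorem adj_adj (M : Mat K n) : adj (adj M) = M := by
  ext i j
  show (eps i * eps j) • star ((eps j * eps i) • star (M i j)) = M i j
  rw [star_rsmul, star_star, smul_smul]
  have : eps i * eps j * (eps j * eps i) = (eps i * eps i) * (eps j * eps j) := by ring
  rw [this, eps_sq, eps_sq, one_mul, one_smul]

/-- A matrix whose adjoint is its left inverse preserves the form. -/
theorem pres_of_adj {M : Mat K n} (h : adj M * M = 1) : Pres M := by
  have key : ∀ x y : V K n, hf (M *ᵥ x) y = hf x (adj M *ᵥ y) := by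
    intro x y
    have e1 : hf (M *ᵥ x) y = ∑ i, eps i • (star ((M *ᵥ x) i) * y i) := by
      unfold hf
      rw [Fin.sum_univ_succ]
      simp [eps, Fin.succ_ne_zero]
    have e2 : hf x (adj M *ᵥ y) = ∑ j, eps j • (star (x j) * (adj M *ᵥ y) j) := by
      unfold hf
      rw [Fin.sum_univ_succ]
      simp [eps, Fin.succ_ne_zero]
    rw [e1, e2]
    have e3 : ∀ i, star ((M *ᵥ x) i) = ∑ j, star (x j) * star (M i j) := by
      intro i
      show star (∑ j, M i j * x j) = _
      rw [star_sum]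
      exact Finset.sum_congr rfl fun j _ => star_mul _ _
    have e4 : ∀ j, (adj M *ᵥ y) j = ∑ i, (eps j * eps i) • (star (M i j) * y i) := by
      intro j
      show ∑ i, (eps j * eps i) • star (M i j) * y i = _
      exact Finset.sum_congr rfl fun i _ => smul_mul_assoc _ _ _
    simp only [e3, e4, Finset.sum_mul, Finset.mul_sum, Finset.smul_sum]
    rw [Finset.sum_comm]
    refine Finset.sum_congr rfl fun j _ => Finset.sum_congr rfl fun i _ => ?_
    rw [mul_smul_comm, smul_smul, ← mul_assoc, ← mul_assoc, eps_sq, one_mul]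
  intro x y
  rw [key, mulVec_mulVec, h, one_mulVec]

theorem Ug_emb : IsClosedEmbedding (fun g : Ug K n => ((g.1 : (Mat K n)ˣ) : Mat K n)) := by
  have hinj : Function.Injective fun g : Ug K n => ((g.1 : (Mat K n)ˣ) : Mat K n) := by
    intro g h hgh
    exact Subtype.ext (Units.ext hgh)
  have hind : IsInducing fun g : Ug K n => ((g.1 : (Mat K n)ˣ) : Mat K n) := by
    have h1 : IsInducing fun g : Ug K n => Units.embedProduct (Mat K n) g.1 :=
      Units.isInducing_embedProduct.comp IsInducing.subtypeVal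
    have h2 : (fun g : Ug K n => Units.embedProduct (Mat K n) g.1) =
        (fun M : Mat K n => (M, MulOpposite.op (adj M))) ∘
          fun g : Ug K n => ((g.1 : (Mat K n)ˣ) : Mat K n) := by
      funext g
      show ((g.1 : Mat K n), MulOpposite.op ((g.1⁻¹ : (Mat K n)ˣ) : Mat K n)) = _
      rw [inv_eq_adj]
      rfl
    rw [h2] at h1
    exact IsInducing.of_comp (Units.continuous_val.comp continuous_subtype_val)
      (continuous_id.prodMk (MulOpposite.continuous_op.comp adj_cont)) h1
  refine ⟨⟨hind, hinj⟩, ?_⟩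
  have hr : Set.range (fun g : Ug K n => ((g.1 : (Mat K n)ˣ) : Mat K n)) =
      {M : Mat K n | adj M * M = 1} ∩ {M : Mat K n | M * adj M = 1} := by
    ext M
    constructor
    · rintro ⟨g, rfl⟩
      show adj (g.1 : Mat K n) * (g.1 : Mat K n) = 1 ∧ (g.1 : Mat K n) * adj (g.1 : Mat K n) = 1
      rw [← inv_eq_adj]
      exact ⟨Units.inv_mul _, Units.mul_inv _⟩
    · rintro ⟨h1, h2⟩
      exact ⟨⟨⟨M, adj M, h2, h1⟩, pres_of_adj h1⟩, rfl⟩
  rw [hr]
  exact (isClosed_eq (adj_cont.mul continuous_id) continuous_const).inter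
    (isClosed_eq (continuous_id.mul adj_cont) continuous_const)

/-- An element of the group from a pair of inverse matrices. -/
def mkU {k : ℕ} (M N : Mat K (k + 1)) (h1 : M * N = 1) (h2 : N * M = 1) (hM : Pres M) :
    Ug K (k + 1) := ⟨⟨M, N, h1, h2⟩, hM⟩

/-- The flip: the reflection in `e1`. -/
noncomputable def flR (K : Type) [NormedDivisionRing K] [NormedAlgebra ℝ K] [StarRing K] [Hur K]
    (k : ℕ) : Mat K (k + 1) := 1 - rk ((2 : ℝ) • e1) e1

theorem flR_mulVec {k : ℕ} (x : V K (k + 1)) : flR K k *ᵥ x = x - (2 : ℝ) • rm e1 (hf e1 x) := by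
  unfold flR
  rw [sub_mulVec, one_mulVec, rk_mulVec, rm_smul]

theorem flR_e0 {k : ℕ} : flR K k *ᵥ (e0 : V K (k + 1)) = e0 := by
  rw [flR_mulVec, hf_e1_e0]
  funext i
  simp [rm]

theorem flR_e1 {k : ℕ} : flR K k *ᵥ (e1 : V K (k + 1)) = -e1 := by
  rw [flR_mulVec, hf_e1_e1, rm_one, two_smul]
  abel

theorem flR_flR {k : ℕ} : flR K k * flR K k = 1 := by
  apply mat_ext
  intro x
  rw [← mulVec_mulVec, flR_mulVec, flR_mulVec, one_mulVec, hf_sub_right, hf_smul_right,
    hf_rm_right, hf_e1_e1, one_mul]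
  have : hf e1 x - (2 : ℝ) • hf e1 x = -hf e1 x := by
    rw [two_smul]
    abel
  rw [this]
  have h2 : rm (e1 : V K (k + 1)) (-hf e1 x) = -rm e1 (hf e1 x) := by
    funext i
    exact mul_neg _ _
  rw [h2, smul_neg]
  abel

theorem flR_pres {k : ℕ} : Pres (flR K k) := by
  intro x y
  rw [flR_mulVec, flR_mulVec]
  simp only [hf_sub_left, hf_sub_right, hf_smul_left, hf_smul_right, hf_rm_left, hf_rm_right,
    hf_e1_e1, mul_one, hf_star, sub_mul, smul_mul_assoc, smul_sub, smul_smul]
  have : ((2 : ℝ) * 2) = 2 + 2 := by norm_num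
  rw [this, add_smul]
  abel

theorem bo_inv {k : ℕ} (τ : ℝ) : (boM k τ : Mat K (k + 1)) * boM k (-τ) = 1 := by
  rw [boM_mul, add_neg_cancel, boM_zero]

theorem bo_inv' {k : ℕ} (τ : ℝ) : (boM k (-τ) : Mat K (k + 1)) * boM k τ = 1 := by
  rw [boM_mul, neg_add_cancel, boM_zero]

/-- The full group of matrices which preserve the form, if there is a nontrivial unipotent. -/
noncomputable def bigU (k : ℕ) (hnt : ∃ (w : V K (k + 1)) (z : K), Adm w z ∧ z ≠ 0) :
    Big (Ug K (k + 1)) K k where
  mat := { toFun := fun g => ((g.1 : (Mat K (k + 1))ˣ) : Mat K (k + 1)), map_one' := rfl,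
           map_mul' := fun _ _ => rfl }
  pres g := g.2
  emb := Ug_emb
  bo τ := mkU (boM k τ) (boM k (-τ)) (bo_inv τ) (bo_inv' τ) (boM_pres τ)
  mat_bo _ := rfl
  un w z := by
    classical
    exact if h : Adm w z then mkU (unM w z) (unM (-w) (star z)) (unM_mul_neg h) (unM_neg_mul h)
      (unM_pres h) else 1
  mat_un w z h := by
    rw [dif_pos h]
    rfl
  fl := mkU (flR K k) (flR K k) flR_flR flR_flR flR_pres
  fa := 1
  norm_fa := norm_one
  fl_e0 := by
    rw [rm_one]
    exact flR_e0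
  fl_e1 := by
    have : rm (e1 : V K (k + 1)) (-1 : K) = -e1 := by
      funext i
      show e1 i * -1 = -e1 i
      rw [mul_neg, mul_one]
    rw [this]
    exact flR_e1
  nt := hnt

end gen

/-- The group `Sp(n,1)`: the invertible quaternionic matrices which preserve the form
`-(star (x 0) * y 0) + ∑ star (x i) * y i`. -/
noncomputable abbrev Spg (n : ℕ) : Subgroup (Mat ℍ[ℝ] n)ˣ := Ug ℍ[ℝ] n

noncomputable instance (k : ℕ) : Big (Spg (k + 1)) ℍ[ℝ] k := bigU k (by
  refine ⟨0, ⟨0, 1, 0, 0⟩, ⟨hf_zero_right _, hf_zero_right _, ?_⟩, ?_⟩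
  · unfold qf
    rw [hf_zero_left, re_zero]
    rfl
  · intro h
    have := congrArg (fun q : ℍ[ℝ] => q.imI) h
    simp at this)

/-- `Sp(n,1)` is a group of rank one. -/
noncomputable def r1Sp (k : ℕ) : Helper11.BR.R1 (Spg (k + 1)) := r1 (Spg (k + 1)) ℍ[ℝ] k

end Pool.Agent.Helper71.CH
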