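import Pool.Agent.Helper71.CH.InstSU
import Pool.Agent.Helper71.CH.InstSp

/-!
# Project CH: topological properties of the groups
-/

set_option autoImplicit false

open Matrix Real Topology Filter
open scoped Quaternion

namespace Pool.Agent.Helper71.CH

theorem t2_of_big (G : Type) [Group G] [TopologicalSpace G] (K : Type) [NormedDivisionRing K]
    [NormedAlgebra ℝ K] [StarRing K] [Hur K] (k : ℕ) [Big G K k] : T2Space G :=
  (Big.emb (G := G) (K := K) (k := k)).isEmbedding.t2Space

theorem lc_of_big (G : Type) [Group G] [TopologicalSpace G] (K : Type) [NormedDivisionRing K]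
    [NormedAlgebra ℝ K] [StarRing K] [Hur K] [FiniteDimensional ℝ K] (k : ℕ) [Big G K k] :
    LocallyCompactSpace G := by
  have : ProperSpace K := FiniteDimensional.proper_real K
  have h : LocallyCompactSpace (Mat K (k + 1)) :=
    inferInstanceAs (LocallyCompactSpace (Fin (k + 2) → Fin (k + 2) → K))
  exact (Big.emb (G := G) (K := K) (k := k)).locallyCompactSpace

theorem sc_of_big (G : Type) [Group G] [TopologicalSpace G] (K : Type) [NormedDivisionRing K]
    [NormedAlgebra ℝ K] [StarRing K] [Hur K] [FiniteDimensional ℝ K] (k : ℕ) [Big G K k] :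
    SecondCountableTopology G := by
  have : ProperSpace K := FiniteDimensional.proper_real K
  have h : SecondCountableTopology (Mat K (k + 1)) :=
    inferInstanceAs (SecondCountableTopology (Fin (k + 2) → Fin (k + 2) → K))
  exact (Big.emb (G := G) (K := K) (k := k)).isEmbedding.isInducing.secondCountableTopology

instance (k : ℕ) : T2Space (SUg (k + 1)) := t2_of_big _ ℂ k

instance (k : ℕ) : LocallyCompactSpace (SUg (k + 1)) := lc_of_big _ ℂ k

instance (k : ℕ) : SecondCountableTopology (SUg (k + 1)) := sc_of_big _ ℂ k

instance (k : ℕ) : T2Space (Spg (k + 1)) := t2_of_big _ ℍ[ℝ] k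

instance (k : ℕ) : LocallyCompactSpace (Spg (k + 1)) := lc_of_big _ ℍ[ℝ] k

instance (k : ℕ) : SecondCountableTopology (Spg (k + 1)) := sc_of_big _ ℍ[ℝ] k

example (k : ℕ) : IsTopologicalGroup (SUg (k + 1)) := inferInstance

example (k : ℕ) : IsTopologicalGroup (Spg (k + 1)) := inferInstance

end Pool.Agent.Helper71.CH
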