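import Pool.Agent.Helper71.CH.NullV

/-!
# Project CH: the base frame, boosts and unipotent matrices
-/

set_option autoImplicit false
set_option linter.unusedSectionVars false

open Matrix Real

namespace Pool.Agent.Helper71.CH

variable {K : Type} [NormedDivisionRing K] [NormedAlgebra ℝ K] [StarRing K] [Hur K] {n k : ℕ}

/-- The first basis vector. -/
def e0 : V K n := Pi.single 0 1

theorem e0_zero : (e0 : V K n) 0 = 1 := Pi.single_eq_same _ _

theorem e0_succ (i : Fin n) : (e0 : V K n) i.succ = 0 :=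
  Pi.single_eq_of_ne (Fin.succ_ne_zero i) _

theorem hf_e0_left (x : V K n) : hf e0 x = -(x 0) := by
  unfold hf
  rw [e0_zero, star_one, one_mul, Finset.sum_eq_zero, add_zero]
  intro i _
  rw [e0_succ, star_zero, zero_mul]

theorem hf_e0_right (x : V K n) : hf x e0 = -star (x 0) := by
  rw [← hf_star, hf_e0_left, star_neg]

theorem qf_e0 : qf (e0 : V K n) = -1 := by
  unfold qf
  rw [hf_e0_left, e0_zero, re_neg, re_one]

/-- The base point. -/
def oo : X K n := ⟨e0, qf_e0, by rw [e0_zero, norm_one, one_smul]⟩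

theorem coe_oo : (oo : X K n).1 = e0 := rfl

/-- The second basis vector. -/
def e1 : V K (k + 1) := Pi.single 1 1

theorem e1_zero : (e1 : V K (k + 1)) 0 = 0 := by
  unfold e1
  exact Pi.single_eq_of_ne zero_ne_one _

theorem e1_one : (e1 : V K (k + 1)) 1 = 1 := Pi.single_eq_same _ _

theorem hf_e1_left (x : V K (k + 1)) : hf e1 x = x 1 := by
  unfold hf
  rw [e1_zero, star_zero, zero_mul, neg_zero, zero_add, Finset.sum_eq_single 0]
  · show star ((e1 : V K (k + 1)) 1) * x 1 = x 1
    rw [e1_one, star_one, one_mul]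
  · intro i _ hi
    have h : (e1 : V K (k + 1)) i.succ = 0 := by
      unfold e1
      refine Pi.single_eq_of_ne ?_ _
      intro h
      exact hi (Fin.succ_injective _ (by rw [h]; rfl))
    rw [h, star_zero, zero_mul]
  · intro h
    exact absurd (Finset.mem_univ _) h

theorem hf_e1_right (x : V K (k + 1)) : hf x e1 = star (x 1) := by
  rw [← hf_star, hf_e1_left]

theorem hf_e0_e1 : hf (e0 : V K (k + 1)) e1 = 0 := by
  rw [hf_e0_left, e1_zero, neg_zero]

theorem hf_e1_e0 : hf (e1 : V K (k + 1)) e0 = 0 := by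
  rw [← hf_star, hf_e0_e1, star_zero]

theorem hf_e0_e0 : hf (e0 : V K n) e0 = -1 := by
  rw [hf_e0_left, e0_zero]

theorem hf_e1_e1 : hf (e1 : V K (k + 1)) e1 = 1 := by
  rw [hf_e1_left, e1_one]

/-- The null vector of the point `∞`. -/
def xinf : V K (k + 1) := e0 + e1

/-- The null vector of the point `0`. -/
def xzero : V K (k + 1) := e0 - e1

theorem hf_xinf_xinf : hf (xinf : V K (k + 1)) xinf = 0 := by
  unfold xinf
  rw [hf_add_left, hf_add_right, hf_add_right, hf_e0_e0, hf_e1_e1, hf_e0_e1, hf_e1_e0]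
  simp

theorem hf_xzero_xzero : hf (xzero : V K (k + 1)) xzero = 0 := by
  unfold xzero
  rw [hf_sub_left, hf_sub_right, hf_sub_right, hf_e0_e0, hf_e1_e1, hf_e0_e1, hf_e1_e0]
  simp

theorem hf_xinf_xzero : hf (xinf : V K (k + 1)) xzero = (-2 : ℝ) • (1 : K) := by
  unfold xinf xzero
  rw [hf_add_left, hf_sub_right, hf_sub_right, hf_e0_e0, hf_e1_e1, hf_e0_e1, hf_e1_e0, neg_smul,
    two_smul]
  abel

theorem hf_xzero_xinf : hf (xzero : V K (k + 1)) xinf = (-2 : ℝ) • (1 : K) := by
  rw [← hf_star, hf_xinf_xzero, star_rsmul, star_one]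

theorem qf_xinf : qf (xinf : V K (k + 1)) = 0 := by
  unfold qf
  rw [hf_xinf_xinf, re_zero]

theorem qf_xzero : qf (xzero : V K (k + 1)) = 0 := by
  unfold qf
  rw [hf_xzero_xzero, re_zero]

theorem xinf_ne : (xinf : V K (k + 1)) ≠ 0 := by
  intro h
  have := hf_xinf_xzero (K := K) (k := k)
  rw [h, hf_zero_left] at this
  have h2 := congrArg norm this
  rw [norm_zero, norm_smul_one] at h2
  norm_num at h2

theorem xzero_ne : (xzero : V K (k + 1)) ≠ 0 := by
  intro h
  have := hf_xinf_xzero (K := K) (k := k)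
  rw [h, hf_zero_right] at this
  have h2 := congrArg norm this
  rw [norm_zero, norm_smul_one] at h2
  norm_num at h2

theorem hf_inf_ne : hf (xinf : V K (k + 1)) xzero ≠ 0 := by
  intro h
  rw [hf_xinf_xzero] at h
  have h2 := congrArg norm h
  rw [norm_zero, norm_smul_one] at h2
  norm_num at h2

theorem e0_eq : (e0 : V K (k + 1)) = (1 / 2 : ℝ) • (xinf + xzero) := by
  unfold xinf xzero
  rw [add_add_sub_cancel, ← two_smul ℝ (e0 : V K (k + 1)), smul_smul]
  norm_num

theorem e1_eq : (e1 : V K (k + 1)) = (1 / 2 : ℝ) • (xinf - xzero) := by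
  unfold xinf xzero
  rw [add_sub_sub_cancel, ← two_smul ℝ (e1 : V K (k + 1)), smul_smul]
  norm_num

/-! ### Rank one matrices -/

/-- The row vector of `x ↦ hf w x`. -/
def Jv (w : V K n) : V K n := fun i => if i = 0 then -star (w 0) else star (w i)

theorem Jv_dot (w x : V K n) : Jv w ⬝ᵥ x = hf w x := by
  unfold dotProduct Jv hf
  rw [Fin.sum_univ_succ]
  simp [Fin.succ_ne_zero]

/-- The matrix of `x ↦ u (hf w x)`. -/
def rk (u w : V K n) : Mat K n := vecMulVec u (Jv w)

theorem rk_mulVec (u w x : V K n) : rk u w *ᵥ x = rm u (hf w x) := by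
  rw [← Jv_dot]
  funext i
  show ∑ j, u i * Jv w j * x j = u i * ∑ j, Jv w j * x j
  rw [Finset.mul_sum]
  exact Finset.sum_congr rfl fun j _ => mul_assoc _ _ _

theorem rk_apply (u w : V K n) (i j : Fin (n + 1)) : rk u w i j = u i * Jv w j := rfl

theorem mat_ext {M N : Mat K n} (h : ∀ x : V K n, M *ᵥ x = N *ᵥ x) : M = N :=
  Matrix.ext_of_mulVec_single fun i => h _

/-! ### Boosts -/

/-- The boost. -/
noncomputable def boM (k : ℕ) (τ : ℝ) : Mat K (k + 1) :=
  1 + rk e0 ((1 - cosh τ) • e0 + sinh τ • e1) + rk e1 ((-sinh τ) • e0 + (cosh τ - 1) • e1)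

theorem boM_mulVec (τ : ℝ) (x : V K (k + 1)) : boM k τ *ᵥ x =
    x + rm e0 ((1 - cosh τ) • hf e0 x + sinh τ • hf e1 x) +
      rm e1 ((-sinh τ) • hf e0 x + (cosh τ - 1) • hf e1 x) := by
  unfold boM
  rw [add_mulVec, add_mulVec, one_mulVec, rk_mulVec, rk_mulVec, hf_add_left, hf_smul_left,
    hf_smul_left, hf_add_left, hf_smul_left, hf_smul_left]

theorem boM_e0 (τ : ℝ) : boM k τ *ᵥ (e0 : V K (k + 1)) = cosh τ • e0 + sinh τ • e1 := by
  have h1 : ∀ c : ℝ, c • (-1 : K) = (-c) • 1 := fun c => by rw [smul_neg, neg_smul]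
  rw [boM_mulVec, hf_e0_e0, hf_e1_e0, smul_zero, smul_zero, add_zero, add_zero, h1, h1, rm_real,
    rm_real, neg_neg]
  module

theorem boM_e1 (τ : ℝ) : boM k τ *ᵥ (e1 : V K (k + 1)) = sinh τ • e0 + cosh τ • e1 := by
  rw [boM_mulVec, hf_e0_e1, hf_e1_e1, smul_zero, smul_zero, zero_add, zero_add, rm_real,
    rm_real]
  module

theorem boM_orth (τ : ℝ) {x : V K (k + 1)} (h0 : hf e0 x = 0) (h1 : hf e1 x = 0) :
    boM k τ *ᵥ x = x := by
  rw [boM_mulVec, h0, h1]
  simp only [smul_zero, add_zero]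
  funext i
  simp [rm]

/-- Every vector is a combination of `e0`, `e1` and an orthogonal one. -/
theorem decomp (x : V K (k + 1)) : ∃ y : V K (k + 1), hf e0 y = 0 ∧ hf e1 y = 0 ∧
    x = rm e0 (-hf e0 x) + rm e1 (hf e1 x) + y := by
  refine ⟨x - (rm e0 (-hf e0 x) + rm e1 (hf e1 x)), ?_, ?_, ?_⟩
  · rw [hf_sub_right, hf_add_right, hf_rm_right, hf_rm_right, hf_e0_e0, hf_e0_e1]
    simp
  · rw [hf_sub_right, hf_add_right, hf_rm_right, hf_rm_right, hf_e1_e0, hf_e1_e1]
    simp
  · abel

theorem boM_pres (τ : ℝ) : Pres (boM k τ : Mat K (k + 1)) := by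
  intro x y
  rw [boM_mulVec, boM_mulVec]
  simp only [hf_add_left, hf_add_right, hf_rm_left, hf_rm_right, hf_e0_e0, hf_e0_e1, hf_e1_e0,
    hf_e1_e1, star_add, star_rsmul, hf_star, mul_zero, zero_mul, add_zero, zero_add, mul_neg,
    neg_mul, mul_one, one_mul]
  have h := cosh_sq τ
  generalize hf e0 y = a
  generalize hf e1 y = b
  generalize hf x e0 = c
  generalize hf x e1 = d
  simp only [add_mul, mul_add, smul_mul_assoc, mul_smul_comm, smul_add, smul_smul, neg_mul,
    neg_add, smul_neg]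
  have h2 : cosh τ * cosh τ = 1 + sinh τ * sinh τ := by rw [← sq, h]; ring
  match_scalars
  · ring
  · linear_combination -h2
  · ring
  · ring
  · linear_combination h2

theorem boM_mul (σ τ : ℝ) : (boM k σ : Mat K (k + 1)) * boM k τ = boM k (σ + τ) := by
  apply mat_ext
  intro x
  obtain ⟨y, h0, h1, hx⟩ := decomp x
  rw [hx]
  simp only [← mulVec_mulVec, mulVec_add, mulVec_rm, boM_e0, boM_e1, boM_orth _ h0 h1,
    mulVec_rsmul]
  rw [cosh_add, sinh_add]
  simp only [rm_add, rm_smul]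
  module

theorem boM_zero : (boM k 0 : Mat K (k + 1)) = 1 := by
  apply mat_ext
  intro x
  rw [boM_mulVec, one_mulVec, cosh_zero, sinh_zero]
  simp only [sub_self, neg_zero, zero_smul, add_zero]
  funext i
  simp [rm]

theorem boM_xinf (τ : ℝ) : boM k τ *ᵥ (xinf : V K (k + 1)) = exp τ • xinf := by
  unfold xinf
  rw [mulVec_add, boM_e0, boM_e1, ← cosh_add_sinh]
  module

theorem boM_xzero (τ : ℝ) : boM k τ *ᵥ (xzero : V K (k + 1)) = exp (-τ) • xzero := by
  unfold xzero
  rw [mulVec_sub, boM_e0, boM_e1, ← cosh_sub_sinh]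
  module

/-! ### Unipotent matrices -/

/-- Admissible parameters of a unipotent matrix. -/
structure Adm (w : V K (k + 1)) (z : K) : Prop where
  inf : hf xinf w = 0
  zero : hf xzero w = 0
  re : re z = qf w

/-- The unipotent matrix which fixes `xinf` and maps `xzero` to `xzero - 2 w + xinf z`. -/
noncomputable def unM (w : V K (k + 1)) (z : K) : Mat K (k + 1) :=
  1 + rk w xinf - rk xinf w - rk (rm xinf ((1 / 2 : ℝ) • z)) xinf

theorem unM_mulVec (w : V K (k + 1)) (z : K) (x : V K (k + 1)) : unM w z *ᵥ x =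
    x + rm w (hf xinf x) - rm xinf (hf w x) - rm xinf ((1 / 2 : ℝ) • z * hf xinf x) := by
  unfold unM
  rw [sub_mulVec, sub_mulVec, add_mulVec, one_mulVec, rk_mulVec, rk_mulVec, rk_mulVec, rm_rm]

theorem Adm.inf' {w : V K (k + 1)} {z : K} (h : Adm w z) : hf w xinf = 0 := by
  rw [← hf_star, h.inf, star_zero]

theorem Adm.zero' {w : V K (k + 1)} {z : K} (h : Adm w z) : hf w xzero = 0 := by
  rw [← hf_star, h.zero, star_zero]

theorem Adm.add_star {w : V K (k + 1)} {z : K} (h : Adm w z) :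
    z + star z = (2 : ℝ) • hf w w := by
  rw [CH.add_star, h.re, hf_self, smul_smul]

theorem unM_xinf {w : V K (k + 1)} {z : K} (h : Adm w z) : unM w z *ᵥ xinf = xinf := by
  rw [unM_mulVec, hf_xinf_xinf, h.inf']
  funext i
  simp [rm]

theorem unM_xzero {w : V K (k + 1)} {z : K} (h : Adm w z) : unM w z *ᵥ xzero =
    xzero - (2 : ℝ) • w + rm xinf z := by
  rw [unM_mulVec, hf_xinf_xzero, h.zero', mul_smul_comm, mul_one, smul_smul, rm_real]
  have : (-2 : ℝ) * (1 / 2) = -1 := by norm_num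
  rw [this, neg_one_smul]
  have h0 : rm xinf (0 : K) = (0 : V K (k + 1)) := by
    funext i
    exact mul_zero _
  have h1 : rm xinf (-z) = -rm (xinf : V K (k + 1)) z := by
    funext i
    exact mul_neg _ _
  rw [h0, h1]
  module

theorem unM_pres {w : V K (k + 1)} {z : K} (h : Adm w z) : Pres (unM w z) := by
  intro x y
  rw [unM_mulVec, unM_mulVec]
  simp only [hf_add_left, hf_add_right, hf_sub_left, hf_sub_right, hf_rm_left, hf_rm_right,
    hf_xinf_xinf, h.inf, h.inf', mul_zero, zero_mul, sub_zero, add_zero, star_mul, hf_star,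
    star_rsmul]
  have h1 : star z = (2 : ℝ) • hf w w - z := by
    rw [← h.add_star]
    abel
  rw [h1]
  generalize hf w w = q
  generalize hf xinf y = a
  generalize hf w y = b
  generalize hf x xinf = c
  generalize hf x w = d
  simp only [mul_add, add_mul, mul_sub, sub_mul, smul_sub, smul_mul_assoc, mul_smul_comm,
    smul_smul, ← mul_assoc]
  have : (1 / 2 : ℝ) * 2 = 1 := by norm_num
  rw [this, one_smul]
  abel

theorem Adm.mul {w w' : V K (k + 1)} {z z' : K} (h : Adm w z) (h' : Adm w' z') :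
    Adm (w + w') (z + z' + (2 : ℝ) • hf w w') where
  inf := by rw [hf_add_right, h.inf, h'.inf, add_zero]
  zero := by rw [hf_add_right, h.zero, h'.zero, add_zero]
  re := by
    rw [re_add, re_add, re_smul, h.re, h'.re, qf_add]
    ring

theorem unM_mul {w w' : V K (k + 1)} {z z' : K} (h : Adm w z) (h' : Adm w' z') :
    unM w z * unM w' z' = unM (w + w') (z + z' + (2 : ℝ) • hf w w') := by
  apply mat_ext
  intro x
  rw [← mulVec_mulVec, unM_mulVec, unM_mulVec, unM_mulVec]
  simp only [hf_add_left, hf_add_right, hf_sub_right, hf_rm_right, hf_xinf_xinf, h.inf, h'.inf,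
    h.inf', zero_mul, sub_zero, add_zero]
  funext i
  simp only [Pi.add_apply, Pi.sub_apply, rm_apply, smul_add, add_mul, mul_add, smul_smul,
    ← mul_assoc]
  have : (1 / 2 : ℝ) * 2 = 1 := by norm_num
  rw [this, one_smul]
  abel

theorem Adm.neg {w : V K (k + 1)} {z : K} (h : Adm w z) : Adm (-w) (star z) where
  inf := by rw [hf_neg_right, h.inf, neg_zero]
  zero := by rw [hf_neg_right, h.zero, neg_zero]
  re := by rw [re_star, h.re, qf_neg]

theorem unM_zero : (unM 0 0 : Mat K (k + 1)) = 1 := by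
  apply mat_ext
  intro x
  rw [unM_mulVec, one_mulVec, hf_zero_left]
  funext i
  simp [rm]

theorem Adm.zero_zero : Adm (0 : V K (k + 1)) 0 where
  inf := hf_zero_right _
  zero := hf_zero_right _
  re := by
    unfold qf
    rw [re_zero, hf_zero_left, re_zero]

theorem unM_neg_mul {w : V K (k + 1)} {z : K} (h : Adm w z) :
    unM (-w) (star z) * unM w z = 1 := by
  rw [unM_mul h.neg h, neg_add_cancel, hf_neg_left, smul_neg, ← h.add_star]
  have : star z + z + -(z + star z) = 0 := by abel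
  rw [this, unM_zero]

theorem unM_mul_neg {w : V K (k + 1)} {z : K} (h : Adm w z) :
    unM w z * unM (-w) (star z) = 1 := by
  rw [unM_mul h h.neg, add_neg_cancel, hf_neg_right, smul_neg, ← h.add_star]
  have : z + star z + -(z + star z) = 0 := by abel
  rw [this, unM_zero]

theorem Adm.scale {w : V K (k + 1)} {z : K} (h : Adm w z) (c : ℝ) :
    Adm (c • w) (c ^ 2 • z) where
  inf := by rw [hf_smul_right, h.inf, smul_zero]
  zero := by rw [hf_smul_right, h.zero, smul_zero]
  re := by rw [re_smul, h.re, qf_smul]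

theorem boM_unM {w : V K (k + 1)} {z : K} (h : Adm w z) (τ : ℝ) :
    boM k (-τ) * unM w z * boM k τ = unM (exp (-τ) • w) (exp (-τ) ^ 2 • z) := by
  have hw0 : hf (e0 : V K (k + 1)) w = 0 := by
    rw [e0_eq, hf_smul_left, hf_add_left, h.inf, h.zero, add_zero, smul_zero]
  have hw1 : hf (e1 : V K (k + 1)) w = 0 := by
    rw [e1_eq, hf_smul_left, hf_sub_left, h.inf, h.zero, sub_zero, smul_zero]
  apply mat_ext
  intro x
  have key : ∀ y : V K (k + 1), boM k (-τ) *ᵥ (unM w z *ᵥ (boM k τ *ᵥ y)) =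
      y + rm w (exp (-τ) • hf xinf y) - rm xinf (exp (-τ) • hf w y) -
        rm xinf ((exp (-τ) ^ 2 * (1 / 2)) • (z * hf xinf y)) := by
    intro y
    have e1 : hf xinf (boM k τ *ᵥ y) = exp (-τ) • hf xinf y := by
      have h1 := boM_pres (K := K) (k := k) τ (boM k (-τ) *ᵥ xinf) y
      rw [mulVec_mulVec, boM_mul, add_neg_cancel, boM_zero, one_mulVec, boM_xinf,
        hf_smul_left] at h1
      exact h1
    have e2 : hf w (boM k τ *ᵥ y) = hf w y := by
      have h1 := boM_pres (K := K) (k := k) τ w y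
      rwa [boM_orth τ hw0 hw1] at h1
    rw [unM_mulVec, e1, e2]
    simp only [mulVec_add, mulVec_sub, mulVec_rm, boM_xinf, boM_orth (-τ) hw0 hw1]
    rw [mulVec_mulVec, boM_mul, neg_add_cancel, boM_zero, one_mulVec]
    funext i
    simp only [Pi.add_apply, Pi.sub_apply, rm_apply, Pi.smul_apply, mul_smul_comm,
      smul_mul_assoc, smul_smul]
    congr 2
    ring
  rw [Matrix.mul_assoc, ← mulVec_mulVec, ← mulVec_mulVec, key, unM_mulVec, hf_smul_left]
  funext i
  simp only [Pi.add_apply, Pi.sub_apply, rm_apply, Pi.smul_apply, mul_smul_comm,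
    smul_mul_assoc, smul_smul]
  congr 2
  ring

end Pool.Agent.Helper71.CH
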