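import Pool.Agent.Helper71.CH.K

/-!
# Project CH: the Hermitian form of signature `(n, 1)` over a division algebra
-/

set_option autoImplicit false
set_option linter.unusedSectionVars false

namespace Pool.Agent.Helper71.CH

variable {K : Type} [NormedDivisionRing K] [NormedAlgebra ℝ K] [StarRing K] [Hur K]

/-- Vectors. -/
abbrev V (K : Type) (n : ℕ) : Type := Fin (n + 1) → K

variable {n : ℕ}

/-- The Hermitian form, conjugate linear in the first variable. -/
def hf (x y : V K n) : K := -(star (x 0) * y 0) + ∑ i : Fin n, star (x i.succ) * y i.succ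

/-- Right multiplication by a scalar. -/
def rm (x : V K n) (a : K) : V K n := fun i => x i * a

/-- The quadratic form. -/
noncomputable def qf (x : V K n) : ℝ := re (hf x x)

/-- The norm of the space part. -/
noncomputable def sp (x : V K n) : ℝ := ∑ i : Fin n, ‖x i.succ‖ ^ 2

theorem sp_nonneg (x : V K n) : 0 ≤ sp x := Finset.sum_nonneg fun _ _ => sq_nonneg _

theorem hf_star (x y : V K n) : star (hf x y) = hf y x := by
  unfold hf
  rw [star_add, star_neg, star_sum, star_mul, star_star]
  congr 1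
  exact Finset.sum_congr rfl fun i _ => by rw [star_mul, star_star]

theorem hf_add_left (x y z : V K n) : hf (x + y) z = hf x z + hf y z := by
  unfold hf
  simp only [Pi.add_apply, star_add, add_mul, Finset.sum_add_distrib]
  abel

theorem hf_add_right (x y z : V K n) : hf x (y + z) = hf x y + hf x z := by
  unfold hf
  simp only [Pi.add_apply, mul_add, Finset.sum_add_distrib]
  abel

theorem hf_smul_left (c : ℝ) (x y : V K n) : hf (c • x) y = c • hf x y := by
  unfold hf
  simp only [Pi.smul_apply, star_rsmul, smul_mul_assoc, ← Finset.smul_sum, smul_add, smul_neg]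

theorem hf_smul_right (c : ℝ) (x y : V K n) : hf x (c • y) = c • hf x y := by
  unfold hf
  simp only [Pi.smul_apply, mul_smul_comm, ← Finset.smul_sum, smul_add, smul_neg]

theorem hf_neg_left (x y : V K n) : hf (-x) y = -hf x y := by
  have := hf_smul_left (-1) x y
  rwa [neg_one_smul, neg_one_smul] at this

theorem hf_neg_right (x y : V K n) : hf x (-y) = -hf x y := by
  have := hf_smul_right (-1) x y
  rwa [neg_one_smul, neg_one_smul] at this

theorem hf_sub_left (x y z : V K n) : hf (x - y) z = hf x z - hf y z := by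
  rw [sub_eq_add_neg, hf_add_left, hf_neg_left, sub_eq_add_neg]

theorem hf_sub_right (x y z : V K n) : hf x (y - z) = hf x y - hf x z := by
  rw [sub_eq_add_neg, hf_add_right, hf_neg_right, sub_eq_add_neg]

theorem hf_zero_left (y : V K n) : hf 0 y = 0 := by
  have := hf_smul_left (0 : ℝ) y y
  rwa [zero_smul, zero_smul] at this

theorem hf_zero_right (y : V K n) : hf y 0 = 0 := by
  have := hf_smul_right (0 : ℝ) y y
  rwa [zero_smul, zero_smul] at this

theorem hf_rm_right (x y : V K n) (a : K) : hf x (rm y a) = hf x y * a := by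
  unfold hf rm
  rw [add_mul, neg_mul, Finset.sum_mul]
  simp only [mul_assoc]

theorem hf_rm_left (x y : V K n) (a : K) : hf (rm x a) y = star a * hf x y := by
  rw [← hf_star, hf_rm_right, star_mul, hf_star]

theorem rm_rm (x : V K n) (a b : K) : rm (rm x a) b = rm x (a * b) := by
  funext i
  exact mul_assoc _ _ _

theorem rm_one (x : V K n) : rm x 1 = x := by
  funext i
  exact mul_one _

theorem rm_real (x : V K n) (c : ℝ) : rm x (c • (1 : K)) = c • x := by
  funext i
  show x i * (c • (1 : K)) = c • x i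
  rw [mul_smul_comm, mul_one]

theorem rm_add (x y : V K n) (a : K) : rm (x + y) a = rm x a + rm y a := by
  funext i
  exact add_mul _ _ _

theorem rm_sub (x y : V K n) (a : K) : rm (x - y) a = rm x a - rm y a := by
  funext i
  exact sub_mul _ _ _

theorem rm_add_right (x : V K n) (a b : K) : rm x (a + b) = rm x a + rm x b := by
  funext i
  exact mul_add _ _ _

theorem rm_smul (x : V K n) (c : ℝ) (a : K) : rm (c • x) a = c • rm x a := by
  funext i
  exact smul_mul_assoc _ _ _

theorem rm_apply (x : V K n) (a : K) (i : Fin (n + 1)) : rm x a i = x i * a := rfl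

theorem norm_hf_comm (x y : V K n) : ‖hf x y‖ = ‖hf y x‖ := by
  rw [← hf_star y x, norm_star']

theorem norm_hf_rm_left (x y : V K n) {a : K} (ha : ‖a‖ = 1) : ‖hf (rm x a) y‖ = ‖hf x y‖ := by
  rw [hf_rm_left, norm_mul, norm_star', ha, one_mul]

theorem norm_hf_rm_right (x y : V K n) {a : K} (ha : ‖a‖ = 1) : ‖hf x (rm y a)‖ = ‖hf x y‖ := by
  rw [hf_rm_right, norm_mul, ha, mul_one]

theorem re_hf_comm (x y : V K n) : re (hf x y) = re (hf y x) := by
  rw [← hf_star y x, re_star]

theorem hf_self (x : V K n) : hf x x = qf x • (1 : K) := by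
  have h := add_star (hf x x)
  rw [hf_star, ← two_smul ℝ (hf x x), mul_smul] at h
  exact smul_right_injective K (two_ne_zero : (2 : ℝ) ≠ 0) h

theorem qf_eq (x : V K n) : qf x = -‖x 0‖ ^ 2 + sp x := by
  unfold qf hf sp
  rw [re_add, re_neg, re_self_star, re_sum]
  congr 1
  exact Finset.sum_congr rfl fun i _ => re_self_star _

theorem norm_hf_self (x : V K n) : ‖hf x x‖ = |qf x| := by
  rw [hf_self, norm_smul_one]

theorem qf_rm (x : V K n) (a : K) : qf (rm x a) = ‖a‖ ^ 2 * qf x := by
  have h : hf (rm x a) (rm x a) = (‖a‖ ^ 2 * qf x) • (1 : K) := by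
    rw [hf_rm_left, hf_rm_right, hf_self, smul_mul_assoc, one_mul, mul_smul_comm, star_mul_self,
      smul_smul, mul_comm]
  unfold qf at h ⊢
  rw [h, re_smul_one]

theorem qf_smul (c : ℝ) (x : V K n) : qf (c • x) = c ^ 2 * qf x := by
  unfold qf
  rw [hf_smul_left, hf_smul_right, re_smul, re_smul]
  ring

theorem qf_neg (x : V K n) : qf (-x) = qf x := by
  unfold qf
  rw [hf_neg_left, hf_neg_right, neg_neg]

theorem qf_add (x y : V K n) : qf (x + y) = qf x + 2 * re (hf x y) + qf y := by
  unfold qf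
  rw [hf_add_left, hf_add_right, hf_add_right, re_add, re_add, re_add, re_hf_comm y x]
  ring

theorem qf_sub (x y : V K n) : qf (x - y) = qf x - 2 * re (hf x y) + qf y := by
  rw [sub_eq_add_neg, qf_add, hf_neg_right, re_neg, qf_neg]
  ring

/-- The Cauchy-Schwarz inequality for the space part. -/
theorem cs (x y : V K n) : ‖∑ i : Fin n, star (x i.succ) * y i.succ‖ ^ 2 ≤ sp x * sp y := by
  have h1 : ‖∑ i : Fin n, star (x i.succ) * y i.succ‖ ≤ ∑ i : Fin n, ‖x i.succ‖ * ‖y i.succ‖ := by
    refine (norm_sum_le _ _).trans (Finset.sum_le_sum fun i _ => ?_)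
    rw [norm_mul, norm_star']
  have h2 := Finset.sum_mul_sq_le_sq_mul_sq Finset.univ (fun i : Fin n => ‖x i.succ‖)
    fun i : Fin n => ‖y i.succ‖
  exact (pow_le_pow_left₀ (norm_nonneg _) h1 2).trans h2

theorem hf_eq_add (x y : V K n) : hf x y + star (x 0) * y 0 =
    ∑ i : Fin n, star (x i.succ) * y i.succ := by
  unfold hf
  abel

/-- Vectors orthogonal to a negative unit vector are positive. -/
theorem le_of_orth {x u : V K n} (hx : qf x = -1) (h : hf x u = 0) :
    sp u ≤ ‖x 0‖ ^ 2 * qf u := by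
  have h1 := cs x u
  rw [qf_eq] at hx ⊢
  rw [← hf_eq_add, h, zero_add, norm_mul, norm_star'] at h1
  have h3 : sp x = ‖x 0‖ ^ 2 - 1 := by linarith
  rw [h3] at h1
  nlinarith

theorem qf_nonneg_of_orth {x u : V K n} (hx : qf x = -1) (h : hf x u = 0) : 0 ≤ qf u := by
  have h1 := le_of_orth hx h
  have h2 := sp_nonneg u
  have h3 : 0 < ‖x 0‖ ^ 2 := by
    rw [qf_eq] at hx
    have := sp_nonneg x
    linarith
  by_contra hc
  nlinarith

theorem eq_zero_of_orth {x u : V K n} (hx : qf x = -1) (h : hf x u = 0) (h0 : qf u = 0) :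
    u = 0 := by
  have h1 := le_of_orth hx h
  rw [h0, mul_zero] at h1
  have h3 : sp u = 0 := le_antisymm h1 (sp_nonneg u)
  have h2 : ∀ i : Fin n, u i.succ = 0 := by
    intro i
    have h4 := (Finset.sum_eq_zero_iff_of_nonneg (fun i _ => sq_nonneg _)).1 h3 i
      (Finset.mem_univ i)
    exact norm_eq_zero.1 ((pow_eq_zero_iff two_ne_zero).1 h4)
  have h5 : u 0 = 0 := by
    rw [qf_eq, h3] at h0
    have : ‖u 0‖ ^ 2 = 0 := by linarith
    exact norm_eq_zero.1 ((pow_eq_zero_iff two_ne_zero).1 this)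
  funext i
  exact Fin.cases h5 (fun j => h2 j) i

/-- The Cauchy-Schwarz inequality on the orthogonal complement of a negative unit vector. -/
theorem cs_orth {x u v : V K n} (hx : qf x = -1) (hu : hf x u = 0) (hv : hf x v = 0) :
    ‖hf u v‖ ^ 2 ≤ qf u * qf v := by
  have hvv := qf_nonneg_of_orth hx hv
  rcases hvv.eq_or_lt with h0 | hpos
  · have hv0 : v = 0 := eq_zero_of_orth hx hv h0.symm
    rw [hv0, hf_zero_right, norm_zero]
    have : qf (0 : V K n) = 0 := by
      unfold qf
      rw [hf_zero_left, re_zero]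
    rw [this]
    simp
  · have h1 : hf x (qf v • u - rm v (hf v u)) = 0 := by
      rw [hf_sub_right, hf_smul_right, hf_rm_right, hu, hv]
      simp
    have h4 := qf_nonneg_of_orth hx h1
    have h5 : qf (qf v • u - rm v (hf v u)) = qf v * (qf u * qf v - ‖hf u v‖ ^ 2) := by
      rw [qf_sub, qf_smul, qf_rm, hf_smul_left, hf_rm_right, re_smul, ← hf_star u v,
        re_mul_star_self, norm_star']
      ring
    rw [h5] at h4
    have h6 := nonneg_of_mul_nonneg_right h4 hpos
    linarith

/-- The decomposition of a vector with respect to a negative unit vector. -/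
theorem hf_proj {x : V K n} (hx : qf x = -1) (y : V K n) : hf x (y + rm x (hf x y)) = 0 := by
  rw [hf_add_right, hf_rm_right, hf_self, hx, neg_smul, one_smul, neg_mul, one_mul,
    add_neg_cancel]

theorem qf_proj {x : V K n} (hx : qf x = -1) (y : V K n) :
    qf (y + rm x (hf x y)) = qf y + ‖hf x y‖ ^ 2 := by
  rw [qf_add, qf_rm, hx, hf_rm_right, ← hf_star x y, re_self_star]
  ring

/-- The inverse Cauchy-Schwarz inequality. -/
theorem inv_cs {x y : V K n} (hx : qf x = -1) : -qf y ≤ ‖hf x y‖ ^ 2 := by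
  have h1 := qf_nonneg_of_orth hx (hf_proj hx y)
  rw [qf_proj hx] at h1
  linarith

theorem one_le_hf {x y : V K n} (hx : qf x = -1) (hy : qf y = -1) : 1 ≤ ‖hf x y‖ := by
  have h := inv_cs (y := y) hx
  rw [hy, neg_neg] at h
  have h2 := norm_nonneg (hf x y)
  nlinarith

theorem eq_of_hf {x y : V K n} (hx : qf x = -1) (hy : qf y = -1) (h : ‖hf x y‖ = 1) :
    y = rm x (-hf x y) := by
  have h1 := eq_zero_of_orth hx (hf_proj hx y) (by rw [qf_proj hx, hy, h]; ring)
  have h2 : rm x (-hf x y) = -rm x (hf x y) := by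
    funext i
    exact mul_neg _ _
  rw [h2]
  exact eq_neg_of_add_eq_zero_left h1

/-- The triangle inequality, in terms of hyperbolic cosines. -/
theorem tri {x y z : V K n} (hx : qf x = -1) (hy : qf y = -1) (hz : qf z = -1) :
    ‖hf x z‖ ≤ ‖hf x y‖ * ‖hf y z‖ + √(‖hf x y‖ ^ 2 - 1) * √(‖hf y z‖ ^ 2 - 1) := by
  have e1 := hf_proj hy x
  have e2 := hf_proj hy z
  have e3 := cs_orth hy e1 e2
  rw [qf_proj hy, qf_proj hy, hx, hz] at e3
  have e4 : hf (x + rm y (hf y x)) (z + rm y (hf y z)) = hf x z + hf x y * hf y z := by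
    rw [hf_add_left, hf_rm_left, e2, mul_zero, add_zero, hf_add_right, hf_rm_right]
  rw [e4] at e3
  have e7 : 0 ≤ ‖hf x y‖ ^ 2 - 1 := by
    have := one_le_hf hx hy
    nlinarith
  have e9 : ‖hf x z + hf x y * hf y z‖ ≤ √(‖hf x y‖ ^ 2 - 1) * √(‖hf y z‖ ^ 2 - 1) := by
    rw [← Real.sqrt_mul e7]
    refine Real.le_sqrt_of_sq_le (e3.trans (le_of_eq ?_))
    rw [norm_hf_comm y x]
    ring
  have e10 : ‖hf x z‖ ≤ ‖hf x z + hf x y * hf y z‖ + ‖hf x y * hf y z‖ := by
    have := norm_sub_le (hf x z + hf x y * hf y z) (hf x y * hf y z)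
    rwa [add_sub_cancel_right] at this
  rw [norm_mul] at e10
  linarith

end Pool.Agent.Helper71.CH
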