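import Pool.Agent.Helper71.CH.Gr

/-!
# Project CH: the distance to the identity, polar coordinates, contraction
-/

set_option autoImplicit false
set_option linter.unusedSectionVars false

open Matrix Real Topology Filter

namespace Pool.Agent.Helper71.CH

section unip

variable {K : Type} [NormedDivisionRing K] [NormedAlgebra ℝ K] [StarRing K] [Hur K] {k : ℕ}

theorem Adm.w0 {w : V K (k + 1)} {z : K} (h : Adm w z) : w 0 = 0 := by
  have h1 : hf (e0 : V K (k + 1)) w = 0 := by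
    rw [e0_eq, hf_smul_left, hf_add_left, h.inf, h.zero, add_zero, smul_zero]
  rw [hf_e0_left] at h1
  exact neg_eq_zero.1 h1

theorem Adm.w1 {w : V K (k + 1)} {z : K} (h : Adm w z) : w 1 = 0 := by
  have h1 : hf (e1 : V K (k + 1)) w = 0 := by
    rw [e1_eq, hf_smul_left, hf_sub_left, h.inf, h.zero, sub_zero, smul_zero]
  rwa [hf_e1_left] at h1

theorem xinf_0 : (xinf : V K (k + 1)) 0 = 1 := by
  unfold xinf
  rw [Pi.add_apply, e0_zero, e1_zero, add_zero]

theorem xinf_1 : (xinf : V K (k + 1)) 1 = 1 := by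
  unfold xinf
  rw [Pi.add_apply, e1_one]
  have : (e0 : V K (k + 1)) 1 = 0 := e0_succ 0
  rw [this, zero_add]

theorem xinf_ss (i : Fin k) : (xinf : V K (k + 1)) i.succ.succ = 0 := by
  unfold xinf e1
  rw [Pi.add_apply, e0_succ, zero_add]
  refine Pi.single_eq_of_ne ?_ _
  intro h
  have := congrArg Fin.val h
  simp at this

/-- The distance of a unipotent matrix to the identity. -/
theorem hq_unM {w : V K (k + 1)} {z : K} (h : Adm w z) :
    hq (unM w z - 1) = 4 * qf w + ‖z‖ ^ 2 := by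
  have hw0 := h.w0
  have hw1 := h.w1
  have hw1' : w (Fin.succ 0) = 0 := hw1
  have hx1' : (xinf : V K (k + 1)) (Fin.succ 0) = 1 := xinf_1
  have he : unM w z - 1 = rk w xinf - rk xinf w - rk (rm xinf ((1 / 2 : ℝ) • z)) xinf := by
    unfold unM
    abel
  have hsp : qf w = ∑ i : Fin k, ‖w i.succ.succ‖ ^ 2 := by
    rw [qf_eq, hw0, norm_zero]
    unfold sp
    rw [Fin.sum_univ_succ, hw1', norm_zero]
    ring
  have hss : ∀ i : Fin k, (i.succ.succ : Fin (k + 2)) ≠ 0 := fun i => Fin.succ_ne_zero _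
  have hs0 : (Fin.succ 0 : Fin (k + 2)) ≠ 0 := Fin.succ_ne_zero _
  unfold hq
  rw [he]
  simp only [Matrix.sub_apply, rk_apply, rm_apply, Jv]
  rw [Fin.sum_univ_succ, Fin.sum_univ_succ (fun i : Fin (k + 1) => ∑ j, _)]
  simp only [Fin.sum_univ_succ (fun j : Fin (k + 2) => ‖_‖ ^ 2),
    Fin.sum_univ_succ (fun j : Fin (k + 1) => ‖_‖ ^ 2), xinf_0, hx1', xinf_ss, hw0, hw1', hss,
    hs0, if_true, if_false, star_one, star_zero, neg_zero, mul_one, mul_zero, zero_mul, one_mul,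
    sub_zero, zero_sub, mul_neg, norm_neg, norm_star', sub_neg_eq_add, zero_add, norm_zero,
    Finset.sum_add_distrib, norm_smul, neg_neg]
  rw [hsp]
  have h2 : ‖(1 / 2 : ℝ)‖ = 1 / 2 := by norm_num
  rw [h2]
  simp
  ring

end unip

variable {G : Type} [Group G] [TopologicalSpace G]
variable (K : Type) [NormedDivisionRing K] [NormedAlgebra ℝ K] [StarRing K] [Hur K]
variable (k : ℕ) [Big G K k]

/-- The distance to the identity. -/
noncomputable def Ed (g : G) : ℝ := hs (mt K k g - 1)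

theorem Ed_cont : Continuous (Ed K k : G → ℝ) :=
  hs_continuous.comp ((mt_cont K k).sub continuous_const)

theorem Ed_one : Ed K k (1 : G) = 0 := by
  unfold Ed hs hq
  rw [mt_one, sub_self]
  simp

theorem Ed_nonneg (g : G) : 0 ≤ Ed K k g := hs_nonneg _

theorem rho_le_Ed (g : G) : rho K k g ≤ Ed K k g := by
  have h1 : sinh (rho K k g) ^ 2 ≤ hq (mt K k g - 1) := by
    rw [sinh_sq, ← norm_mt_zero, ← col_zero (mt_pres K k g)]
    have h2 : ∑ i : Fin (k + 1), ‖mt K k g i.succ 0‖ ^ 2 ≤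
        ∑ i : Fin (k + 2), ‖(mt K k g - 1) i 0‖ ^ 2 := by
      rw [Fin.sum_univ_succ (fun i : Fin (k + 2) => ‖(mt K k g - 1) i 0‖ ^ 2)]
      have h3 : ∀ i : Fin (k + 1), (mt K k g - 1) i.succ 0 = mt K k g i.succ 0 := fun i => by
        rw [Matrix.sub_apply, Matrix.one_apply_ne (Fin.succ_ne_zero i), sub_zero]
      simp only [h3]
      have := sq_nonneg ‖(mt K k g - 1) 0 0‖
      linarith
    have h4 : ∑ i : Fin (k + 2), ‖(mt K k g - 1) i 0‖ ^ 2 ≤ hq (mt K k g - 1) := by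
      unfold hq
      rw [Finset.sum_comm]
      exact Finset.single_le_sum (f := fun j => ∑ i : Fin (k + 2), ‖(mt K k g - 1) i j‖ ^ 2)
        (fun _ _ => Finset.sum_nonneg fun _ _ => sq_nonneg _) (Finset.mem_univ 0)
    exact h2.trans h4
  have h2 : sinh (rho K k g) ≤ Ed K k g := Real.le_sqrt_of_sq_le h1
  exact (self_le_sinh_iff.2 (rho_nonneg K k g)).trans h2

theorem Ed_conj (x g : G) : Ed K k (x⁻¹ * g * x) ≤ ((k : ℝ) + 5) * exp (2 * rho K k x) *
    Ed K k g := by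
  have h1 : mt K k (x⁻¹ * g * x) - 1 = mt K k x⁻¹ * (mt K k g - 1) * mt K k x := by
    rw [mt_mul, mt_mul, Matrix.mul_sub, Matrix.sub_mul, Matrix.mul_one, mt_inv_mul]
  unfold Ed
  rw [h1]
  have h2 := hs_mt_le K k x
  have h3 := hs_mt_le K k x⁻¹
  rw [rho_inv] at h3
  have h4 : exp (2 * rho K k x) = exp (rho K k x) * exp (rho K k x) := by
    rw [← exp_add]
    congr 1
    ring
  have h5 : √((k : ℝ) + 5) * √((k : ℝ) + 5) = (k : ℝ) + 5 := Real.mul_self_sqrt (by positivity)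
  calc hs (mt K k x⁻¹ * (mt K k g - 1) * mt K k x) ≤
        hs (mt K k x⁻¹) * hs (mt K k g - 1) * hs (mt K k x) :=
        (hs_mul _ _).trans (mul_le_mul_of_nonneg_right (hs_mul _ _) (hs_nonneg _))
    _ ≤ (√(k + 5) * exp (rho K k x)) * hs (mt K k g - 1) * (√(k + 5) * exp (rho K k x)) := by
        have := hs_nonneg (mt K k g - 1)
        gcongr
        exact hs_nonneg _
    _ = (√(k + 5) * √(k + 5)) * (exp (rho K k x) * exp (rho K k x)) * hs (mt K k g - 1) := by ring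
    _ = _ := by rw [h5, h4]

theorem Ed_inv (g : G) : Ed K k g⁻¹ = Ed K k g := by
  unfold Ed hs
  rw [hq_inv_sub_one (mt_pres K k g) (mt_mul_inv K k g)]

theorem Ed_dg (u : G) (hu : u ∈ (Ur K k : Subgroup G)) (a : ℝ) (ha : 0 ≤ a) :
    Ed K k (dg K k (-a) * u * dg K k a) ≤ exp (-a) * Ed K k u := by
  obtain ⟨w, z, hw, h⟩ := hu
  have h1 : mt K k (dg K k (-a) * u * dg K k a) = unM (exp (-a) • w) (exp (-a) ^ 2 • z) := by
    rw [mt_mul, mt_mul, mt_dg, mt_dg, h, boM_unM hw]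
  unfold Ed hs
  rw [h1, hq_unM (hw.scale _), h, hq_unM hw, qf_smul, norm_smul, Real.norm_eq_abs,
    abs_of_nonneg (sq_nonneg _)]
  refine Real.sqrt_le_iff.2 ⟨by positivity, ?_⟩
  have hq0 : 0 ≤ qf w := by
    rw [qf_eq, hw.w0, norm_zero]
    have := sp_nonneg w
    linarith
  have h0 : (exp (-a) * √(4 * qf w + ‖z‖ ^ 2)) ^ 2 = exp (-a) ^ 2 * (4 * qf w + ‖z‖ ^ 2) := by
    rw [mul_pow (exp (-a)), Real.sq_sqrt (by positivity)]
  rw [h0]
  have h2 : exp (-a) ^ 2 ≤ 1 := by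
    have : exp (-a) ≤ 1 := exp_le_one_iff.2 (by linarith)
    exact pow_le_one₀ (exp_pos _).le this
  have h3 : (exp (-a) ^ 2 * ‖z‖) ^ 2 ≤ exp (-a) ^ 2 * ‖z‖ ^ 2 := by
    have h4 : (exp (-a) ^ 2 * ‖z‖) ^ 2 = exp (-a) ^ 2 * (exp (-a) ^ 2 * ‖z‖ ^ 2) := by ring
    rw [h4]
    have h5 : exp (-a) ^ 2 * ‖z‖ ^ 2 ≤ 1 * ‖z‖ ^ 2 :=
      mul_le_mul_of_nonneg_right h2 (sq_nonneg _)
    rw [one_mul] at h5
    exact mul_le_mul_of_nonneg_left h5 (sq_nonneg _)
  linarith

theorem unM_00 {w : V K (k + 1)} {z : K} (h : Adm w z) :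
    unM w z 0 0 = 1 + (1 / 2 : ℝ) • z := by
  unfold unM
  simp only [Matrix.sub_apply, Matrix.add_apply, Matrix.one_apply_eq, rk_apply, rm_apply, Jv,
    if_true, xinf_0, h.w0, star_zero, star_one, zero_mul, neg_zero, mul_zero, one_mul, sub_zero,
    add_zero, mul_neg, mul_one, sub_neg_eq_add]

theorem cosh_rho_U {u : G} {w : V K (k + 1)} {z : K} (h : Adm w z)
    (hu : mt K k u = unM w z) : sinh (rho K k u) ^ 2 = qf w + ‖z‖ ^ 2 / 4 := by
  rw [sinh_sq, ← norm_mt_zero, hu, unM_00 K k h, norm_add_sq', norm_one, star_one, one_mul,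
    re_smul, h.re, norm_smul]
  have h2 : ‖(1 / 2 : ℝ)‖ = 1 / 2 := by norm_num
  rw [h2]
  ring

theorem Ed_sinh (u : G) (hu : u ∈ (Ur K k : Subgroup G)) : Ed K k u ≤ 2 * sinh (rho K k u) := by
  obtain ⟨w, z, hw, h⟩ := hu
  have h1 := cosh_rho_U K k hw h
  have h2 : 0 ≤ sinh (rho K k u) := sinh_nonneg_iff.2 (rho_nonneg K k u)
  unfold Ed hs
  rw [h, hq_unM hw]
  refine Real.sqrt_le_iff.2 ⟨by positivity, ?_⟩
  nlinarith

theorem gm_U {u : G} {w : V K (k + 1)} {z : K} (h : Adm w z)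
    (hu : mt K k u = unM w z) : gm K k ((flip K k)⁻¹ * u * flip K k) = ‖z‖ := by
  rw [gm_flip_mul_flip, act_eq, hu, unM_xzero h, hf_add_right, hf_sub_right, hf_smul_right,
    h.zero, hf_xzero_xzero, hf_rm_right, hf_xzero_xinf, smul_zero, sub_zero, zero_add,
    smul_mul_assoc, one_mul, norm_smul]
  have h2 : ‖(-2 : ℝ)‖ = 2 := by norm_num
  rw [h2]
  ring

theorem Ed_sq (u : G) (hu : u ∈ (Ur K k : Subgroup G)) : Ed K k u ^ 2 ≤
    4 * gm K k ((flip K k)⁻¹ * u * flip K k) + gm K k ((flip K k)⁻¹ * u * flip K k) ^ 2 := by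
  obtain ⟨w, z, hw, h⟩ := hu
  rw [gm_U K k hw h]
  unfold Ed
  rw [hs_sq, h, hq_unM hw, ← hw.re]
  have := re_le z
  linarith

theorem Ed_pair (g p h : G) : |gm K k (g⁻¹ * p * h) - gm K k (g⁻¹ * h)| ≤
    Ed K k p * nm K k g * nm K k h := by
  rw [mul_assoc, gm_inv_mul, gm_inv_mul, nm_eq, nm_eq, act_mul]
  set u : V K (k + 1) := act g xinf with hu
  set v : V K (k + 1) := act h xinf with hv
  have hu0 : qf u = 0 := qf_act_xinf K k g
  have hv0 : qf v = 0 := qf_act_xinf K k h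
  have h1 : act p v = v + (mt K k p - 1) *ᵥ v := by
    rw [Matrix.sub_mulVec, Matrix.one_mulVec, act_eq]
    abel
  have h2 : ‖hf u (act p v)‖ ≤ ‖hf u v‖ + ‖hf u ((mt K k p - 1) *ᵥ v)‖ := by
    rw [h1, hf_add_right]
    exact norm_add_le _ _
  have h3 : ‖hf u v‖ ≤ ‖hf u (act p v)‖ + ‖hf u ((mt K k p - 1) *ᵥ v)‖ := by
    have : hf u v = hf u (act p v) - hf u ((mt K k p - 1) *ᵥ v) := by
      rw [h1, hf_add_right]
      abel
    rw [this]
    exact norm_sub_le _ _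
  have h4 : ‖hf u ((mt K k p - 1) *ᵥ v)‖ ≤ 2 * (Ed K k p * ‖u 0‖ * ‖v 0‖) := by
    refine (norm_hf_le_eu _ _).trans ?_
    have e1 : √(eu u) = √2 * ‖u 0‖ := by
      rw [eu_null hu0, Real.sqrt_mul zero_le_two, Real.sqrt_sq (norm_nonneg _)]
    have e2 : √(eu ((mt K k p - 1) *ᵥ v)) ≤ Ed K k p * (√2 * ‖v 0‖) := by
      have e3 := eu_mulVec (mt K k p - 1) v
      rw [eu_null hv0] at e3
      refine Real.sqrt_le_iff.2 ⟨by have := Ed_nonneg K k p; positivity, e3.trans (le_of_eq ?_)⟩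
      rw [mul_pow, mul_pow, Real.sq_sqrt zero_le_two]
      unfold Ed
      rw [hs_sq]
    rw [e1]
    calc √2 * ‖u 0‖ * √(eu ((mt K k p - 1) *ᵥ v)) ≤
          √2 * ‖u 0‖ * (Ed K k p * (√2 * ‖v 0‖)) :=
          mul_le_mul_of_nonneg_left e2 (by positivity)
      _ = (√2 * √2) * (Ed K k p * ‖u 0‖ * ‖v 0‖) := by ring
      _ = _ := by rw [Real.mul_self_sqrt zero_le_two]
  rw [abs_le]
  constructor <;> linarith

/-! ### Transitivity -/

theorem exists_act_xinf {v : V K (k + 1)} (hv : qf v = 0) (hv0 : v ≠ 0) :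
    ∃ (h : G) (b : K), b ≠ 0 ∧ act h (xinf : V K (k + 1)) = rm v b := by
  by_cases h0 : hf xinf v = 0
  · have h1 : hf v xinf = 0 := by rw [← hf_star, h0, star_zero]
    have h2 := null_prop hv (qf_xinf (K := K) (k := k)) hv0 h1
    refine ⟨1, _, ?_, by rw [act_one]; exact h2⟩
    intro h3
    rw [h3] at h2
    have h4 : rm v (0 : K) = 0 := by
      funext i
      exact mul_zero _
    rw [h4] at h2
    exact xinf_ne h2
  · have ha := adm_p K k hv h0
    have hfa : (Big.fa G k : K) ≠ 0 := by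
      intro h
      have := Big.norm_fa (G := G) (K := K) (k := k)
      rw [h, norm_zero] at this
      norm_num at this
    refine ⟨Big.un (pw K k v) (pz K k v) * flip K k,
      (-2 : ℝ) • ((hf xinf v)⁻¹ * Big.fa G k), ?_, ?_⟩
    · exact smul_ne_zero (by norm_num) (mul_ne_zero (inv_ne_zero h0) hfa)
    · have h1 : act (Big.un (pw K k v) (pz K k v) : G) (xzero : V K (k + 1)) =
          (-2 : ℝ) • rm v (hf xinf v)⁻¹ := by
        rw [pw_eq, ← unM_xzero ha]
        show Rep.mat (Big.un (pw K k v) (pz K k v) : G) *ᵥ xzero = _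
        rw [Big.mat_un _ _ ha]
      rw [act_mul, act_flip_xinf, act_rm, h1, rm_smul, rm_rm]
      funext i
      simp only [Pi.smul_apply, rm_apply, mul_smul_comm]

/-- Every pair of null vectors with nonzero pairing is, up to scalars, the image of the pair
`(xinf, xzero)`. -/
theorem exists_act_pair {v v' : V K (k + 1)} (hv : qf v = 0) (hv' : qf v' = 0)
    (h : hf v v' ≠ 0) : ∃ (g : G) (b b' : K), b ≠ 0 ∧ act g (xinf : V K (k + 1)) = rm v b ∧
      act g (xzero : V K (k + 1)) = rm v' b' := by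
  have hv0 : v ≠ 0 := by
    rintro rfl
    exact h (hf_zero_left _)
  obtain ⟨g, b, hb, hg⟩ := exists_act_xinf (G := G) K k hv hv0
  set v'' : V K (k + 1) := act g⁻¹ v' with hv''
  have h1 : qf v'' = 0 := by rw [hv'', qf_act, hv']
  have h2 : hf xinf v'' ≠ 0 := by
    rw [hv'', hf_inv_act, hg, hf_rm_left]
    exact mul_ne_zero (star_ne_zero.2 hb) h
  have ha := adm_p K k h1 h2
  have hu : (Big.un (pw K k v'') (pz K k v'') : G) ∈ (Ur K k : Subgroup G) :=
    ⟨_, _, ha, Big.mat_un _ _ ha⟩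
  refine ⟨g * Big.un (pw K k v'') (pz K k v''), b, (-2 : ℝ) • (hf xinf v'')⁻¹, hb, ?_, ?_⟩
  · rw [act_mul, act_Ur_xinf K k hu, hg]
  · have h3 : act (Big.un (pw K k v'') (pz K k v'') : G) (xzero : V K (k + 1)) =
        (-2 : ℝ) • rm v'' (hf xinf v'')⁻¹ := by
      rw [pw_eq, ← unM_xzero ha]
      show Rep.mat (Big.un (pw K k v'') (pz K k v'') : G) *ᵥ xzero = _
      rw [Big.mat_un _ _ ha]
    rw [act_mul, h3, act_smul, act_rm, hv'', act_act_inv]
    funext i
    simp only [Pi.smul_apply, rm_apply, mul_smul_comm]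

/-- Polar coordinates. -/
theorem polar (g : G) : ∃ κ : G, rho K k κ = 0 ∧ rho K k (g⁻¹ * (κ * dg K k (rho K k g))) = 0 := by
  set r := rho K k g with hr
  by_cases h0 : r = 0
  · refine ⟨1, rho_one K k, ?_⟩
    rw [h0, dg_zero, mul_one, mul_one, rho_inv, ← hr, h0]
  have hr0 : 0 < r := lt_of_le_of_ne (rho_nonneg K k g) (Ne.symm h0)
  have hs0 : 0 < sinh r := sinh_pos_iff.2 hr0
  set y : V K (k + 1) := act g e0 with hy
  have hqy : qf y = -1 := by rw [hy, qf_act, qf_e0]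
  have hn : ‖hf (e0 : V K (k + 1)) y‖ = cosh r := by rw [hr, cosh_rho]
  have hne : hf (e0 : V K (k + 1)) y ≠ 0 := by
    rw [← norm_ne_zero_iff, hn]
    exact (cosh_pos r).ne'
  set a : K := -ph (hf (e0 : V K (k + 1)) y) with ha
  have hna : ‖a‖ = 1 := by rw [ha, norm_neg, norm_ph hne]
  have hya : hf (e0 : V K (k + 1)) (rm y a) = (-cosh r) • (1 : K) := by
    rw [hf_rm_right, ha, mul_neg, mul_ph, hn, neg_smul]
  have hqya : qf (rm y a) = -1 := by rw [qf_rm, hna, hqy]; ring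
  set u : V K (k + 1) := (sinh r)⁻¹ • (rm y a - cosh r • e0) with hu
  have h1 : hf (e0 : V K (k + 1)) u = 0 := by
    rw [hu, hf_smul_right, hf_sub_right, hf_smul_right, hya, hf_e0_e0, smul_neg, neg_smul,
      sub_self, smul_zero]
  have h2 : qf u = 1 := by
    rw [hu, qf_smul, qf_sub, qf_smul, hqya, qf_e0, hf_smul_right, re_smul, re_hf_comm, hya,
      re_smul_one]
    have := cosh_sq r
    field_simp
    linarith
  have h1' : hf u (e0 : V K (k + 1)) = 0 := by rw [← hf_star, h1, star_zero]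
  have hrec : rm y a = cosh r • e0 + sinh r • u := by
    rw [hu, smul_smul, mul_inv_cancel₀ hs0.ne', one_smul]
    abel
  have hv : qf (e0 + u) = 0 := by
    rw [qf_add, qf_e0, h1, re_zero, h2]
    ring
  have hv' : qf (e0 - u) = 0 := by
    rw [qf_sub, qf_e0, h1, re_zero, h2]
    ring
  have hvv : hf (e0 + u) (e0 - u) = (-2 : ℝ) • (1 : K) := by
    rw [hf_add_left, hf_sub_right, hf_sub_right, h1, h1', hf_self, hf_self u, qf_e0, h2,
      neg_smul, neg_smul, one_smul, two_smul]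
    abel
  have hvv' : hf (e0 + u) (e0 - u) ≠ 0 := by
    rw [hvv]
    exact smul_ne_zero (by norm_num) one_ne_zero
  obtain ⟨h, b, b', hb, hb1, hb2⟩ := exists_act_pair (G := G) K k hv hv' hvv'
  have hb0 : 0 < ‖b‖ := norm_pos_iff.2 hb
  have hes : exp (log ‖b‖) = ‖b‖ := exp_log hb0
  set s := log ‖b‖ with hs
  have hbb : b' = (exp (-s) * exp (-s)) • b := by
    have q1 := hf_act h (xinf : V K (k + 1)) xzero
    rw [hb1, hb2, hf_rm_left, hf_rm_right, hvv, hf_xinf_xzero, smul_mul_assoc, one_mul,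
      mul_smul_comm] at q1
    have q2 : star b * b' = 1 := smul_right_injective K (by norm_num : (-2 : ℝ) ≠ 0) q1
    have q3 : b * (star b * b') = b := by rw [q2, mul_one]
    rw [← mul_assoc, mul_star_self, smul_mul_assoc, one_mul] at q3
    have q4 : (exp (-s) * exp (-s)) * ‖b‖ ^ 2 = 1 := by
      rw [← hes, sq, ← exp_add, ← exp_add, ← exp_add]
      ring_nf
      exact exp_zero
    calc b' = ((exp (-s) * exp (-s)) * ‖b‖ ^ 2) • b' := by rw [q4, one_smul]
      _ = (exp (-s) * exp (-s)) • ((‖b‖ ^ 2) • b') := by rw [smul_smul]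
      _ = _ := by rw [q3]
  set β : K := exp (-s) • b with hβ
  have hnβ : ‖β‖ = 1 := by
    rw [hβ, norm_smul, Real.norm_eq_abs, abs_exp, Real.exp_neg, ← hes,
      inv_mul_cancel₀ (exp_ne_zero s)]
  -- the images of the null vectors
  have hk1 : act (h * dg K k (-s)) (xinf : V K (k + 1)) = rm (e0 + u) β := by
    rw [act_mul, act_dg_xinf, act_smul, hb1, hβ]
    funext i
    simp only [Pi.smul_apply, rm_apply, mul_smul_comm]
  have hk2 : act (h * dg K k (-s)) (xzero : V K (k + 1)) = rm (e0 - u) β := by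
    rw [act_mul, act_dg_xzero, act_smul, hb2, hβ, hbb, neg_neg]
    have q5 : exp s * (exp (-s) * exp (-s)) = exp (-s) := by
      rw [← exp_add, ← exp_add]
      congr 1
      ring
    funext i
    simp only [Pi.smul_apply, rm_apply, mul_smul_comm, smul_smul]
    rw [q5]
  have hk3 : ∀ t : ℝ, act (h * dg K k (-s) * dg K k t) (e0 : V K (k + 1)) =
      rm (cosh t • e0 + sinh t • u) β := by
    intro t
    rw [act_mul, oo_dg, act_smul, act_add, act_smul, act_smul, hk1, hk2, cosh_eq, sinh_eq]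
    simp only [rm_add, rm_sub, rm_smul]
    module
  refine ⟨h * dg K k (-s), rho_eq_of K k le_rfl ?_, rho_eq_of K k le_rfl ?_⟩
  · have := hk3 0
    rw [dg_zero, mul_one, cosh_zero, sinh_zero, one_smul, zero_smul, add_zero] at this
    rw [this, norm_hf_rm_right _ _ hnβ, hf_e0_e0, norm_neg, norm_one, cosh_zero]
  · rw [act_mul, hf_inv_act, hk3, ← hrec, norm_hf_rm_right _ _ hnβ, ← hy,
      norm_hf_rm_right _ _ hna, norm_hf_self, hqy, abs_neg, abs_one, cosh_zero]

/-- Contraction of the radial retractions. -/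
theorem rad (κ : G) (hκ : rho K k κ = 0) (j r r' : ℝ) (hj : 0 ≤ j) (hr : j ≤ r) (hr' : j ≤ r') :
    sinh (rho K k (dg K k (-j) * κ * dg K k j)) ^ 2 * (sinh r * sinh r') ≤
      sinh j ^ 2 * sinh (rho K k (dg K k (-r) * κ * dg K k r')) ^ 2 := by
  have hq : qf (act κ (e0 : V K (k + 1))) = -1 := by rw [qf_act, qf_e0]
  have h1 : ‖hf (e0 : V K (k + 1)) (act κ e0)‖ = 1 := by
    rw [← cosh_rho, hκ, cosh_zero]
  set a : K := -hf (e0 : V K (k + 1)) (act κ e0) with ha
  have hna : ‖a‖ = 1 := by rw [ha, norm_neg, h1]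
  have h2 : act κ (e0 : V K (k + 1)) = rm e0 a := eq_of_hf qf_e0 hq h1
  have ha0 : star a ≠ 0 := by
    rw [ne_eq, star_eq_zero]
    intro h
    rw [h, norm_zero] at hna
    norm_num at hna
  have h3 : hf (e0 : V K (k + 1)) (act κ e1) = 0 := by
    have := hf_act κ (e0 : V K (k + 1)) e1
    rw [h2, hf_rm_left, hf_e0_e1] at this
    exact (mul_eq_zero.1 this).resolve_left ha0
  set ω : K := hf (e1 : V K (k + 1)) (act κ e1) with hω
  have hω1 : ‖ω‖ ≤ 1 := by
    have h4 := cs_orth qf_e0 (hf_e0_e1 (K := K) (k := k)) h3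
    have h5 : qf (e1 : V K (k + 1)) = 1 := by
      unfold qf
      rw [hf_e1_e1, re_one]
    rw [qf_act, h5, mul_one] at h4
    rw [hω]
    have := norm_nonneg (hf (e1 : V K (k + 1)) (act κ e1))
    nlinarith
  have key : ∀ p q : ℝ, sinh (rho K k (dg K k (-p) * κ * dg K k q)) ^ 2 =
      (cosh p * cosh q) ^ 2 - 2 * (cosh p * cosh q * (sinh p * sinh q)) * re (star a * ω) +
        (sinh p * sinh q) ^ 2 * ‖ω‖ ^ 2 - 1 := by
    intro p q
    have h4 : hf (e0 : V K (k + 1)) (act (dg K k (-p) * κ * dg K k q) e0) =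
        (-(cosh p * cosh q)) • a + (sinh p * sinh q) • ω := by
      rw [act_mul, act_mul, dg_neg, hf_inv_act, act_dg, boM_e0, act_dg, boM_e0, act_add, act_smul,
        act_smul, h2]
      simp only [hf_add_left, hf_add_right, hf_smul_left, hf_smul_right, hf_rm_right, hf_e0_e0,
        hf_e1_e0, h3, neg_mul, one_mul, smul_zero, add_zero, zero_add, zero_mul, smul_neg,
        smul_mul_assoc, smul_smul, neg_smul]
      rw [mul_comm (cosh q), mul_comm (sinh q)]
    rw [sinh_sq, cosh_rho, h4, norm_add_sq', norm_smul, norm_smul, hna, star_rsmul,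
      smul_mul_smul_comm, re_smul, Real.norm_eq_abs, Real.norm_eq_abs, mul_one, mul_pow, sq_abs,
      sq_abs]
    ring
  rw [key, key]
  set t := re (star a * ω) with ht
  have ht1 : |t| ≤ ‖ω‖ := by
    have := abs_re_le (star a * ω)
    rwa [norm_mul, norm_star', hna, one_mul] at this
  have ht2 : t ^ 2 ≤ ‖ω‖ ^ 2 := by
    rw [← sq_abs t]
    exact pow_le_pow_left₀ (abs_nonneg _) ht1 2
  have ht3 : t ≤ 1 := (le_abs_self t).trans (ht1.trans hω1)
  have hj0 : 0 ≤ sinh j := sinh_nonneg_iff.2 hj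
  have hjr : sinh j ≤ sinh r := sinh_le_sinh.2 hr
  have hjr' : sinh j ≤ sinh r' := sinh_le_sinh.2 hr'
  set σ := sinh j ^ 2 with hσ
  set S := sinh r * sinh r' with hS
  have hσS : σ ≤ S := by
    rw [hσ, hS, sq]
    exact mul_le_mul hjr hjr' hj0 (hj0.trans hjr)
  have hσ0 : 0 ≤ σ := sq_nonneg _
  have hC : cosh r * cosh r' = cosh (r - r') + S := by
    rw [cosh_sub]
    ring
  have hc1 : 1 ≤ cosh (r - r') := one_le_cosh _
  have hjj : cosh j * cosh j = 1 + σ := by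
    rw [← sq, cosh_sq, hσ]
    ring
  have hsj : sinh j * sinh j = σ := by rw [hσ, sq]
  rw [hC, hjj, hsj]
  set c := cosh (r - r')
  set m := ‖ω‖ ^ 2
  have hq0 : 0 ≤ 1 - 2 * t + m := by nlinarith [sq_nonneg (1 - t)]
  have e1 : (1 + σ) ^ 2 - 2 * ((1 + σ) * σ) * t + σ ^ 2 * m - 1 =
      2 * σ * (1 - t) + σ ^ 2 * (1 - 2 * t + m) := by ring
  have e2 : (c + S) ^ 2 - 2 * ((c + S) * S) * t + S ^ 2 * m - 1 =
      (c ^ 2 - 1) + 2 * c * S * (1 - t) + S ^ 2 * (1 - 2 * t + m) := by ring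
  rw [e1, e2]
  have h6 : 0 ≤ S := hσ0.trans hσS
  have h7 : 2 * S * (1 - t) ≤ 2 * c * S * (1 - t) := by
    have : 0 ≤ 2 * S * (1 - t) := mul_nonneg (by positivity) (by linarith)
    nlinarith
  have h8 : S * σ * (1 - 2 * t + m) ≤ S ^ 2 * (1 - 2 * t + m) := by
    refine mul_le_mul_of_nonneg_right ?_ hq0
    rw [sq]
    exact mul_le_mul_of_nonneg_left hσS h6
  have h9 : 0 ≤ c ^ 2 - 1 := by nlinarith
  have h10 : S * (2 * (1 - t) + σ * (1 - 2 * t + m)) ≤
      (c ^ 2 - 1) + 2 * c * S * (1 - t) + S ^ 2 * (1 - 2 * t + m) := by nlinarith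
  calc (2 * σ * (1 - t) + σ ^ 2 * (1 - 2 * t + m)) * S =
        σ * (S * (2 * (1 - t) + σ * (1 - 2 * t + m))) := by ring
    _ ≤ _ := mul_le_mul_of_nonneg_left h10 hσ0

end Pool.Agent.Helper71.CH
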