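import Pool.Agent.Helper71.CH.Top

/-!
# Project CH: groups of matrices over a division algebra

The class `Big G K k`: `G` is a closed group of matrices which preserve the form of signature
`(k + 1, 1)` over `K` and contains the boosts, the unipotent matrices and a flip.
-/

set_option autoImplicit false
set_option linter.unusedSectionVars false

open Matrix Real Topology

namespace Pool.Agent.Helper71.CH

/-- Closed groups of matrices which contain the boosts, the unipotent matrices and a flip. -/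
class Big (G : Type) [Group G] [TopologicalSpace G] (K : Type) [NormedDivisionRing K]
    [NormedAlgebra ℝ K] [StarRing K] [Hur K] (k : ℕ) extends Rep G K (k + 1) where
  emb : IsClosedEmbedding (mat : G → Mat K (k + 1))
  bo : ℝ → G
  mat_bo : ∀ τ, mat (bo τ) = boM k τ
  un : V K (k + 1) → K → G
  mat_un : ∀ w z, Adm w z → mat (un w z) = unM w z
  fl : G
  fa : K
  norm_fa : ‖fa‖ = 1
  fl_e0 : mat fl *ᵥ (e0 : V K (k + 1)) = rm e0 fa
  fl_e1 : mat fl *ᵥ (e1 : V K (k + 1)) = rm e1 (-fa)
  nt : ∃ (w : V K (k + 1)) (z : K), Adm w z ∧ z ≠ 0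

variable {G : Type} [Group G] [TopologicalSpace G]
variable (K : Type) [NormedDivisionRing K] [NormedAlgebra ℝ K] [StarRing K] [Hur K]
variable (k : ℕ) [Big G K k]

/-- The matrix of an element. -/
def mt (g : G) : Mat K (k + 1) := Rep.mat g

theorem mt_mul (g h : G) : mt K k (g * h) = mt K k g * mt K k h := map_mul _ _ _

theorem mt_one : mt K k (1 : G) = 1 := map_one _

theorem mt_pres (g : G) : Pres (mt K k g) := Rep.pres g

theorem mt_inv_mul (g : G) : mt K k g⁻¹ * mt K k g = 1 := by
  rw [← mt_mul, inv_mul_cancel, mt_one]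

theorem mt_mul_inv (g : G) : mt K k g * mt K k g⁻¹ = 1 := by
  rw [← mt_mul, mul_inv_cancel, mt_one]

theorem mt_inj {g h : G} (H : mt K k g = mt K k h) : g = h := (Big.emb (K := K)).injective H

theorem act_eq (g : G) (x : V K (k + 1)) : act g x = mt K k g *ᵥ x := rfl

theorem mt_cont : Continuous (mt K k : G → Mat K (k + 1)) := (Big.emb (K := K)).continuous

theorem act_cont (x : V K (k + 1)) : Continuous fun g : G => act g x :=
  (mt_cont K k).matrix_mulVec continuous_const

/-- The displacement of the base point. -/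
noncomputable def rho (g : G) : ℝ := dist (oo : X K (k + 1)) (g • (oo : X K (k + 1)))

theorem cosh_rho (g : G) : cosh (rho K k g) = ‖hf (e0 : V K (k + 1)) (act g e0)‖ := by
  unfold rho
  rw [smul_def, dist_mkX_right]
  rfl

theorem rho_nonneg (g : G) : 0 ≤ rho K k g := dist_nonneg

theorem rho_eq (g : G) : rho K k g = arcosh ‖hf (e0 : V K (k + 1)) (act g e0)‖ := by
  rw [← cosh_rho, arcosh_cosh (rho_nonneg K k g)]

theorem rho_eq_of {g : G} {d : ℝ} (hd : 0 ≤ d)
    (h : ‖hf (e0 : V K (k + 1)) (act g e0)‖ = cosh d) : rho K k g = d := by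
  rw [rho_eq, h, arcosh_cosh hd]

theorem rho_one : rho K k (1 : G) = 0 := by
  unfold rho
  rw [one_smul, dist_self]

theorem rho_inv (g : G) : rho K k g⁻¹ = rho K k g := by
  unfold rho
  rw [← dist_smul' g, smul_inv_smul, dist_comm]

theorem rho_mul (g h : G) : rho K k (g * h) ≤ rho K k g + rho K k h := by
  unfold rho
  refine (dist_triangle _ (g • (oo : X K (k + 1))) _).trans (add_le_add_right ?_ _)
  rw [mul_smul, dist_smul']

theorem one_le_act (g : G) : 1 ≤ ‖hf (e0 : V K (k + 1)) (act g e0)‖ :=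
  one_le_hf qf_e0 (by rw [qf_act]; exact qf_e0)

theorem rho_cont : Continuous (rho K k : G → ℝ) := by
  have h : (rho K k : G → ℝ) = fun g => arcosh ‖hf (e0 : V K (k + 1)) (act g e0)‖ :=
    funext fun g => rho_eq K k g
  rw [h]
  exact continuousOn_arcosh.comp_continuous (hf_cont continuous_const (act_cont K k e0)).norm
    fun g => one_le_act K k g

theorem norm_mt_zero (g : G) : ‖mt K k g 0 0‖ = cosh (rho K k g) := by
  rw [cosh_rho, hf_e0_left, norm_neg]
  congr 1
  exact (mulVec_single_one' _ _ _).symm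

theorem hq_mt (g : G) : hq (mt K k g) = 4 * cosh (rho K k g) ^ 2 + (k + 1 : ℕ) - 3 := by
  rw [hq_pres (mt_pres K k g) (mt_pres K k g⁻¹) (mt_mul_inv K k g), norm_mt_zero]

theorem hs_mt_le (g : G) : hs (mt K k g) ≤ √(k + 5) * exp (rho K k g) := by
  unfold hs
  rw [hq_mt]
  refine Real.sqrt_le_iff.2 ⟨by positivity, ?_⟩
  rw [mul_pow, Real.sq_sqrt (by positivity)]
  have h1 : 1 ≤ cosh (rho K k g) := one_le_cosh _
  have h2 : cosh (rho K k g) ≤ exp (rho K k g) := by
    have := sinh_nonneg_iff.2 (rho_nonneg K k g)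
    rw [← cosh_add_sinh]
    linarith
  have h3 : cosh (rho K k g) ^ 2 ≤ exp (rho K k g) ^ 2 := pow_le_pow_left₀ (by linarith) h2 2
  have h4 : 1 ≤ cosh (rho K k g) ^ 2 := by nlinarith
  push_cast
  have h5 : (k : ℝ) ≤ k * exp (rho K k g) ^ 2 := by
    have : (0 : ℝ) ≤ k := by positivity
    nlinarith
  nlinarith

theorem norm_entry_le {n : ℕ} (M : Mat K n) (i j : Fin (n + 1)) : ‖M i j‖ ≤ hs M := by
  unfold hs hq
  refine Real.le_sqrt_of_sq_le ?_
  calc ‖M i j‖ ^ 2 ≤ ∑ j, ‖M i j‖ ^ 2 :=
        Finset.single_le_sum (f := fun j => ‖M i j‖ ^ 2) (fun _ _ => sq_nonneg _)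
          (Finset.mem_univ j)
    _ ≤ _ := Finset.single_le_sum (f := fun i => ∑ j, ‖M i j‖ ^ 2)
          (fun _ _ => Finset.sum_nonneg fun _ _ => sq_nonneg _) (Finset.mem_univ i)

theorem proper [FiniteDimensional ℝ K] (R : ℝ) : IsCompact {g : G | rho K k g ≤ R} := by
  have : ProperSpace K := FiniteDimensional.proper_real K
  set S : Set (Mat K (k + 1)) := Set.univ.pi fun _ => Set.univ.pi fun _ =>
    Metric.closedBall (0 : K) (√(k + 5) * exp R)
  have hS : IsCompact S := isCompact_univ_pi fun _ => isCompact_univ_pi fun _ =>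
    isCompact_closedBall _ _
  have h1 : IsCompact ((mt K k : G → Mat K (k + 1)) ⁻¹' S) :=
    (Big.emb (K := K)).isCompact_preimage hS
  refine h1.of_isClosed_subset (isClosed_le (rho_cont K k) continuous_const) ?_
  intro g hg
  have hg' : rho K k g ≤ R := hg
  show mt K k g ∈ S
  intro i _ j _
  rw [Metric.mem_closedBall, dist_zero_right]
  refine (norm_entry_le K _ i j).trans ((hs_mt_le K k g).trans ?_)
  exact mul_le_mul_of_nonneg_left (exp_le_exp.2 hg') (Real.sqrt_nonneg _)

/-! ### Boosts and the flip -/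

/-- The boosts. -/
def dg (t : ℝ) : G := Big.bo K k t

theorem mt_dg (t : ℝ) : mt K k (dg K k t : G) = boM k t := Big.mat_bo t

theorem dg_add (s t : ℝ) : (dg K k (s + t) : G) = dg K k s * dg K k t := by
  apply mt_inj K k
  rw [mt_mul, mt_dg, mt_dg, mt_dg, boM_mul]

theorem dg_zero : (dg K k 0 : G) = 1 := by
  apply mt_inj K k
  rw [mt_dg, boM_zero, mt_one]

theorem dg_neg (t : ℝ) : (dg K k (-t) : G) = (dg K k t)⁻¹ := by
  rw [eq_inv_iff_mul_eq_one, ← dg_add, neg_add_cancel, dg_zero]

theorem dg_cont : Continuous (dg K k : ℝ → G) := by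
  rw [(Big.emb (G := G) (K := K) (k := k)).isInducing.continuous_iff]
  have : (Rep.mat : G → Mat K (k + 1)) ∘ dg K k = boM k := funext fun t => mt_dg K k t
  rw [this]
  exact boM_cont k

theorem act_dg (t : ℝ) (x : V K (k + 1)) : act (dg K k t : G) x = boM k t *ᵥ x := by
  rw [act_eq, mt_dg]

theorem rho_dg (t : ℝ) : rho K k (dg K k t : G) = |t| := by
  refine rho_eq_of K k (abs_nonneg t) ?_
  rw [act_dg, boM_e0, hf_add_right, hf_smul_right, hf_smul_right, hf_e0_e0, hf_e0_e1, smul_zero,
    add_zero, smul_neg, norm_neg, norm_smul_one, abs_of_pos (cosh_pos t), cosh_abs]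

/-- The flip. -/
def flip : G := Big.fl K k

theorem act_flip_e0 : act (flip K k : G) (e0 : V K (k + 1)) = rm e0 (Big.fa G k) := Big.fl_e0

theorem act_flip_e1 : act (flip K k : G) (e1 : V K (k + 1)) = rm e1 (-Big.fa G k) := Big.fl_e1

theorem act_flip_xinf : act (flip K k : G) (xinf : V K (k + 1)) = rm xzero (Big.fa G k) := by
  unfold xinf xzero
  rw [act_add, act_flip_e0, act_flip_e1, rm_sub]
  funext i
  simp [rm, sub_eq_add_neg]

theorem act_flip_xzero : act (flip K k : G) (xzero : V K (k + 1)) = rm xinf (Big.fa G k) := by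
  unfold xinf xzero
  rw [act_sub, act_flip_e0, act_flip_e1, rm_add]
  funext i
  simp [rm, sub_eq_add_neg]

theorem rho_flip : rho K k (flip K k : G) = 0 := by
  refine rho_eq_of K k le_rfl ?_
  rw [act_flip_e0, norm_hf_rm_right _ _ Big.norm_fa, hf_e0_e0, cosh_zero, norm_neg, norm_one]

theorem flip_dg (t : ℝ) : (flip K k : G) * dg K k t = dg K k (-t) * flip K k := by
  apply mt_inj K k
  apply mat_ext
  intro x
  obtain ⟨y, h0, h1, hx⟩ := decomp x
  have hy : ∀ y : V K (k + 1), hf e0 y = 0 → hf e1 y = 0 →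
      hf e0 (act (flip K k : G) y) = 0 ∧ hf e1 (act (flip K k : G) y) = 0 := by
    intro y h0 h1
    have hfa : (Big.fa G k : K) ≠ 0 := by
      intro h
      have := Big.norm_fa (G := G) (K := K) (k := k)
      rw [h, norm_zero] at this
      norm_num at this
    have q1 := hf_act (flip K k : G) (e0 : V K (k + 1)) y
    have q2 := hf_act (flip K k : G) (e1 : V K (k + 1)) y
    rw [act_flip_e0, hf_rm_left, h0] at q1
    rw [act_flip_e1, hf_rm_left, h1] at q2
    exact ⟨(mul_eq_zero.1 q1).resolve_left (star_ne_zero.2 hfa),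
      (mul_eq_zero.1 q2).resolve_left (star_ne_zero.2 (neg_ne_zero.2 hfa))⟩
  show act ((flip K k : G) * dg K k t) x = act (dg K k (-t) * (flip K k : G)) x
  rw [act_mul, act_mul, hx]
  simp only [act_add, act_rm, act_flip_e0, act_flip_e1, act_dg, mulVec_rm, boM_e0, boM_e1,
    boM_orth _ h0 h1, boM_orth _ (hy y h0 h1).1 (hy y h0 h1).2, cosh_neg, sinh_neg, act_smul]
  congr 1
  funext i
  simp only [Pi.add_apply, Pi.smul_apply, Pi.neg_apply, rm_apply, smul_mul_assoc, mul_neg,
    neg_mul, smul_neg, neg_smul, add_mul]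
  abel

end Pool.Agent.Helper71.CH
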