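import Pool.Agent.Helper71.CH.Gp

/-!
# Project CH: the pairing of ends, the norm, the unipotent radical
-/

set_option autoImplicit false
set_option linter.unusedSectionVars false

open Matrix Real Topology Filter

namespace Pool.Agent.Helper71.CH

variable {G : Type} [Group G] [TopologicalSpace G]
variable (K : Type) [NormedDivisionRing K] [NormedAlgebra ℝ K] [StarRing K] [Hur K]
variable (k : ℕ) [Big G K k]

/-- The pairing of the end of `g` with the end of `1`. -/
noncomputable def gm (g : G) : ℝ := ‖hf (xinf : V K (k + 1)) (act g xinf)‖ / 2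

/-- The norm of the null vector of `g`. -/
noncomputable def nm (g : G) : ℝ := ‖hf (e0 : V K (k + 1)) (act g xinf)‖

theorem gm_cont : Continuous (gm K k : G → ℝ) :=
  (hf_cont continuous_const (act_cont K k xinf)).norm.div_const 2

theorem gm_nonneg (g : G) : 0 ≤ gm K k g := div_nonneg (norm_nonneg _) zero_le_two

theorem gm_inv (g : G) : gm K k g⁻¹ = gm K k g := by
  unfold gm
  rw [hf_inv_act, norm_hf_comm]

theorem gm_inv_mul (g h : G) : gm K k (g⁻¹ * h) =
    ‖hf (act g xinf) (act h (xinf : V K (k + 1)))‖ / 2 := by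
  unfold gm
  rw [act_mul, hf_inv_act]

theorem act_dg_xinf (t : ℝ) : act (dg K k t : G) (xinf : V K (k + 1)) = exp t • xinf := by
  rw [act_dg, boM_xinf]

theorem act_dg_xzero (t : ℝ) : act (dg K k t : G) (xzero : V K (k + 1)) = exp (-t) • xzero := by
  rw [act_dg, boM_xzero]

theorem gm_dg (g : G) (t : ℝ) : gm K k (g * dg K k t) = exp t * gm K k g := by
  unfold gm
  rw [act_mul, act_dg_xinf, act_smul, hf_smul_right, norm_smul, Real.norm_eq_abs, abs_exp]
  ring

theorem gm_one : gm K k (1 : G) = 0 := by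
  unfold gm
  rw [act_one, hf_xinf_xinf, norm_zero, zero_div]

theorem gm_flip : gm K k (flip K k : G) = 1 := by
  unfold gm
  rw [act_flip_xinf, norm_hf_rm_right _ _ Big.norm_fa, hf_xinf_xzero, norm_smul_one]
  norm_num

theorem act_flip_flip_xinf : act (flip K k * flip K k : G) (xinf : V K (k + 1)) =
    rm xinf (Big.fa G k * Big.fa G k) := by
  rw [act_mul, act_flip_xinf, act_rm, act_flip_xzero, rm_rm]

theorem norm_fa_mul : ‖(Big.fa G k * Big.fa G k : K)‖ = 1 := by
  rw [norm_mul, Big.norm_fa, one_mul]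

theorem gm_flip_flip (g : G) : gm K k (flip K k * flip K k * g) = gm K k g := by
  unfold gm
  have h1 : hf (act (flip K k * flip K k : G) (xinf : V K (k + 1)))
      (act (flip K k * flip K k * g) xinf) = hf (xinf : V K (k + 1)) (act g xinf) := by
    rw [act_mul (flip K k * flip K k) g, hf_act]
  rw [act_flip_flip_xinf, hf_rm_left] at h1
  rw [← h1, norm_mul, norm_star', norm_fa_mul, one_mul]

theorem qf_act_xinf (g : G) : qf (act g (xinf : V K (k + 1))) = 0 := by
  rw [qf_act, qf_xinf]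

theorem gm_flip_inv_mul (g : G) : gm K k ((flip K k)⁻¹ * g) =
    ‖hf (xzero : V K (k + 1)) (act g xinf)‖ / 2 := by
  rw [gm_inv_mul, act_flip_xinf, norm_hf_rm_left _ _ Big.norm_fa]

theorem gm_mul_flip (g : G) : gm K k (g * flip K k) =
    ‖hf (xinf : V K (k + 1)) (act g xzero)‖ / 2 := by
  unfold gm
  rw [act_mul, act_flip_xinf, act_rm, norm_hf_rm_right _ _ Big.norm_fa]

theorem gm_flip_mul_flip (g : G) : gm K k ((flip K k)⁻¹ * g * flip K k) =
    ‖hf (xzero : V K (k + 1)) (act g xzero)‖ / 2 := by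
  rw [mul_assoc, gm_flip_inv_mul, act_mul, act_flip_xinf, act_rm,
    norm_hf_rm_right _ _ Big.norm_fa]

theorem ptol (p q : G) : √(gm K k (p⁻¹ * q)) ≤ √(gm K k p * gm K k ((flip K k)⁻¹ * q)) +
    √(gm K k ((flip K k)⁻¹ * p) * gm K k q) := by
  have h := ptolemy (qf_act_xinf K k p) (qf_act_xinf K k q) (qf_xinf (K := K) (k := k))
    (qf_xzero (K := K) (k := k)) hf_inf_ne
  rw [gm_inv_mul, gm_flip_inv_mul, gm_flip_inv_mul]
  unfold gm
  rw [hf_xinf_xzero, norm_smul_one, norm_hf_comm (act p xinf) xinf,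
    norm_hf_comm (act p xinf) xzero] at h
  set P := ‖hf (act p (xinf : V K (k + 1))) (act q xinf)‖
  set A := ‖hf (xinf : V K (k + 1)) (act p xinf)‖
  set B := ‖hf (xzero : V K (k + 1)) (act q xinf)‖
  set C := ‖hf (xzero : V K (k + 1)) (act p xinf)‖
  set D := ‖hf (xinf : V K (k + 1)) (act q xinf)‖
  have e1 : P / 2 = (1 / 2) ^ 2 * (P * |(-2 : ℝ)|) := by
    rw [abs_neg, abs_two]
    ring
  have e2 : A / 2 * (B / 2) = (1 / 2) ^ 2 * (A * B) := by ring
  have e3 : C / 2 * (D / 2) = (1 / 2) ^ 2 * (C * D) := by ring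
  have e4 : ∀ x : ℝ, √((1 / 2) ^ 2 * x) = 1 / 2 * √x := fun x => by
    rw [Real.sqrt_mul (by positivity), Real.sqrt_sq (by norm_num)]
  rw [e1, e2, e3, e4, e4, e4, ← mul_add]
  exact mul_le_mul_of_nonneg_left h (by norm_num)

theorem nm_cont : Continuous (nm K k : G → ℝ) :=
  (hf_cont continuous_const (act_cont K k xinf)).norm

theorem hf_e0_xinf : hf (e0 : V K (k + 1)) xinf = -1 := by
  unfold xinf
  rw [hf_add_right, hf_e0_e0, hf_e0_e1, add_zero]

theorem nm_one : nm K k (1 : G) = 1 := by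
  unfold nm
  rw [act_one, hf_e0_xinf, norm_neg, norm_one]

theorem nm_dg (g : G) (t : ℝ) : nm K k (g * dg K k t) = exp t * nm K k g := by
  unfold nm
  rw [act_mul, act_dg_xinf, act_smul, hf_smul_right, norm_smul, Real.norm_eq_abs, abs_exp]

theorem nm_mul (x g : G) : nm K k (x * g) ≤ exp (rho K k x) * nm K k g := by
  have h1 := null_le_exp (oo : X K (k + 1)) (x⁻¹ • oo) (qf_act_xinf K k g)
  have h2 : dist (oo : X K (k + 1)) (x⁻¹ • (oo : X K (k + 1))) = rho K k x := by
    rw [← rho_inv]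
    rfl
  rw [h2, smul_def, norm_hf_mkX_left, hf_act_inv, ← act_mul] at h1
  exact h1

theorem nm_le (g : G) : nm K k g ≤ gm K k g + gm K k ((flip K k)⁻¹ * g) := by
  rw [gm_flip_inv_mul]
  unfold nm gm
  rw [e0_eq, hf_smul_left, hf_add_left, norm_smul]
  have h := norm_add_le (hf (xinf : V K (k + 1)) (act g xinf))
    (hf (xzero : V K (k + 1)) (act g xinf))
  have h2 : ‖(1 / 2 : ℝ)‖ = 1 / 2 := by norm_num
  rw [h2]
  linarith

theorem nm_eq (g : G) : nm K k g = ‖act g (xinf : V K (k + 1)) 0‖ := by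
  unfold nm
  rw [hf_e0_left, norm_neg]

theorem gm_le_mul (g h : G) : gm K k (g⁻¹ * h) ≤ nm K k g * nm K k h := by
  rw [gm_inv_mul, nm_eq, nm_eq]
  have := norm_hf_null (qf_act_xinf K k g) (qf_act_xinf K k h)
  linarith

theorem rho_le (g : G) : exp (rho K k g) ≤ gm K k g + gm K k ((flip K k)⁻¹ * g) +
    gm K k (g * flip K k) + gm K k ((flip K k)⁻¹ * g * flip K k) := by
  have h1 : exp (rho K k g) ≤ 2 * cosh (rho K k g) := by
    rw [cosh_eq]
    have := exp_pos (-rho K k g)
    linarith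
  rw [gm_flip_inv_mul, gm_mul_flip, gm_flip_mul_flip]
  unfold gm
  rw [cosh_rho] at h1
  have h2 : hf (e0 : V K (k + 1)) (act g e0) = (1 / 4 : ℝ) •
      (hf (xinf : V K (k + 1)) (act g xinf) + hf (xinf : V K (k + 1)) (act g xzero) +
      (hf (xzero : V K (k + 1)) (act g xinf) + hf (xzero : V K (k + 1)) (act g xzero))) := by
    rw [e0_eq, act_smul, hf_smul_left, hf_smul_right, act_add, hf_add_left, hf_add_right,
      hf_add_right, smul_smul]
    norm_num
  rw [h2, norm_smul] at h1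
  have h3 : ‖(1 / 4 : ℝ)‖ = 1 / 4 := by norm_num
  rw [h3] at h1
  have h4 := norm_add_le (hf (xinf : V K (k + 1)) (act g xinf) +
    hf (xinf : V K (k + 1)) (act g xzero)) (hf (xzero : V K (k + 1)) (act g xinf) +
    hf (xzero : V K (k + 1)) (act g xzero))
  have h5 := norm_add_le (hf (xinf : V K (k + 1)) (act g xinf))
    (hf (xinf : V K (k + 1)) (act g xzero))
  have h6 := norm_add_le (hf (xzero : V K (k + 1)) (act g xinf))
    (hf (xzero : V K (k + 1)) (act g xzero))
  linarith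

/-! ### The unipotent radical -/

/-- The unipotent radical of the stabilizer of the end of `1`. -/
def Ur : Subgroup G where
  carrier := {g | ∃ (w : V K (k + 1)) (z : K), Adm w z ∧ mt K k g = unM w z}
  mul_mem' := by
    rintro g h ⟨w, z, ha, hg⟩ ⟨w', z', ha', hh⟩
    exact ⟨_, _, ha.mul ha', by rw [mt_mul, hg, hh, unM_mul ha ha']⟩
  one_mem' := ⟨0, 0, Adm.zero_zero, by rw [mt_one, unM_zero]⟩
  inv_mem' := by
    rintro g ⟨w, z, ha, hg⟩
    refine ⟨-w, star z, ha.neg, ?_⟩
    calc mt K k g⁻¹ = mt K k g⁻¹ * (unM w z * unM (-w) (star z)) := by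
          rw [unM_mul_neg ha, mul_one]
      _ = mt K k g⁻¹ * mt K k g * unM (-w) (star z) := by rw [hg, Matrix.mul_assoc]
      _ = _ := by rw [mt_inv_mul, one_mul]

theorem mem_Ur {g : G} : g ∈ (Ur K k : Subgroup G) ↔
    ∃ (w : V K (k + 1)) (z : K), Adm w z ∧ mt K k g = unM w z := Iff.rfl

theorem Ur_dg (u : G) (hu : u ∈ (Ur K k : Subgroup G)) (t : ℝ) :
    dg K k (-t) * u * dg K k t ∈ (Ur K k : Subgroup G) := by
  obtain ⟨w, z, ha, h⟩ := hu
  refine ⟨_, _, ha.scale (exp (-t)), ?_⟩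
  rw [mt_mul, mt_mul, mt_dg, mt_dg, h, boM_unM ha]

theorem act_Ur_xinf {u : G} (hu : u ∈ (Ur K k : Subgroup G)) :
    act u (xinf : V K (k + 1)) = xinf := by
  obtain ⟨w, z, ha, h⟩ := hu
  rw [act_eq, h, unM_xinf ha]

theorem gm_Ur (u : G) (hu : u ∈ (Ur K k : Subgroup G)) (g : G) : gm K k (u * g) = gm K k g := by
  unfold gm
  have h1 := hf_act u (xinf : V K (k + 1)) (act g xinf)
  rw [act_Ur_xinf K k hu] at h1
  rw [act_mul, h1]

theorem nm_Ur (u : G) (hu : u ∈ (Ur K k : Subgroup G)) (g : G) : nm K k (g * u) = nm K k g := by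
  unfold nm
  rw [act_mul, act_Ur_xinf K k hu]

/-- The parameters of the unipotent element which maps `0` to the end of the null vector `v`. -/
noncomputable def pz (v : V K (k + 1)) : K := hf xzero v * (hf xinf v)⁻¹

/-- The parameters of the unipotent element which maps `0` to the end of the null vector `v`. -/
noncomputable def pw (v : V K (k + 1)) : V K (k + 1) :=
  (-1 / 2 : ℝ) • ((-2 : ℝ) • rm v (hf xinf v)⁻¹ - xzero - rm xinf (pz K k v))

theorem pw_eq {v : V K (k + 1)} : (-2 : ℝ) • rm v (hf xinf v)⁻¹ =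
    xzero - (2 : ℝ) • pw K k v + rm xinf (pz K k v) := by
  unfold pw
  rw [smul_smul]
  have : (2 : ℝ) * (-1 / 2) = -1 := by norm_num
  rw [this, neg_one_smul]
  abel

theorem adm_p {v : V K (k + 1)} (hv : qf v = 0) (h : hf xinf v ≠ 0) :
    Adm (pw K k v) (pz K k v) := by
  have h1 : hf xinf (pw K k v) = 0 := by
    unfold pw
    rw [hf_smul_right, hf_sub_right, hf_sub_right, hf_smul_right, hf_rm_right, hf_rm_right,
      mul_inv_cancel₀ h, hf_xinf_xzero, hf_xinf_xinf]
    simp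
  have h2 : hf xzero (pw K k v) = 0 := by
    have : hf xzero (rm v (hf xinf v)⁻¹) = pz K k v := by
      rw [hf_rm_right]
      rfl
    unfold pw
    rw [hf_smul_right, hf_sub_right, hf_sub_right, hf_smul_right, this, hf_rm_right,
      hf_xzero_xinf, hf_xzero_xzero]
    simp
  refine ⟨h1, h2, ?_⟩
  have h3 : qf ((-2 : ℝ) • rm v (hf xinf v)⁻¹) = 0 := by
    rw [qf_smul, qf_rm, hv, mul_zero, mul_zero]
  rw [pw_eq, qf_add, qf_sub, qf_smul, qf_rm, qf_xinf, qf_xzero, hf_sub_left, hf_smul_right,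
    hf_smul_left, hf_rm_right, hf_rm_right, hf_xzero_xinf, h2] at h3
  have h4 : hf (pw K k v) xinf = 0 := by rw [← hf_star, h1, star_zero]
  rw [h4] at h3
  simp only [smul_mul_assoc, one_mul, zero_mul, smul_zero, sub_zero, re_smul, re_zero] at h3
  linarith

/-- The unipotent element which maps `0` to the end of `g`. -/
noncomputable def nu (g : G) : G :=
  Big.un (pw K k (act g xinf)) (pz K k (act g xinf))

theorem mt_nu {g : G} (h : hf (xinf : V K (k + 1)) (act g xinf) ≠ 0) :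
    mt K k (nu K k g) = unM (pw K k (act g xinf)) (pz K k (act g xinf)) :=
  Big.mat_un _ _ (adm_p K k (qf_act_xinf K k g) h)

theorem gm_ne {g : G} : gm K k g ≠ 0 ↔ hf (xinf : V K (k + 1)) (act g xinf) ≠ 0 := by
  unfold gm
  rw [ne_eq, div_eq_zero_iff, not_or, norm_eq_zero]
  constructor
  · rintro ⟨h, -⟩
    exact h
  · intro h
    exact ⟨h, two_ne_zero⟩

theorem act_nu_xzero {g : G} (h : gm K k g ≠ 0) : act (nu K k g) (xzero : V K (k + 1)) =
    (-2 : ℝ) • rm (act g xinf) (hf (xinf : V K (k + 1)) (act g xinf))⁻¹ := by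
  have h' := (gm_ne K k).1 h
  rw [act_eq, mt_nu K k h', unM_xzero (adm_p K k (qf_act_xinf K k g) h'), ← pw_eq]

end Pool.Agent.Helper71.CH
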