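import Pool.Agent.Helper71.CH.Gq

/-!
# Project CH: unipotent elements, stabilizers of ends, the distance to the identity
-/

set_option autoImplicit false
set_option linter.unusedSectionVars false

open Matrix Real Topology Filter

namespace Pool.Agent.Helper71.CH

variable {G : Type} [Group G] [TopologicalSpace G]
variable (K : Type) [NormedDivisionRing K] [NormedAlgebra ℝ K] [StarRing K] [Hur K]
variable (k : ℕ) [Big G K k]

open Classical in
/-- The unipotent element which maps `0` to the end of `g`, the identity if the end of `g` is the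
end of `1`. -/
noncomputable def nu' (g : G) : G := if gm K k g = 0 then 1 else nu K k g

theorem nu_mem (g : G) : nu' K k g ∈ (Ur K k : Subgroup G) := by
  unfold nu'
  split_ifs with h
  · exact Subgroup.one_mem _
  · have h' := (gm_ne K k).1 h
    exact ⟨_, _, adm_p K k (qf_act_xinf K k g) h', mt_nu K k h'⟩

theorem nu_end (g : G) (h : gm K k g ≠ 0) : gm K k ((nu' K k g * flip K k)⁻¹ * g) = 0 := by
  have e : nu' K k g = nu K k g := if_neg h
  rw [e, gm_inv_mul, act_mul, act_flip_xinf, act_rm, act_nu_xzero K k h, hf_rm_left,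
    hf_smul_left, hf_rm_left, hf_self, qf_act_xinf]
  simp

theorem nu_cont : ContinuousOn (nu' K k : G → G) {g | gm K k g ≠ 0} := by
  rw [(Big.emb (G := G) (K := K) (k := k)).isInducing.continuousOn_iff]
  have h1 : ContinuousOn (fun g : G => unM (pw K k (act g xinf)) (pz K k (act g xinf)))
      {g | gm K k g ≠ 0} := by
    rw [continuousOn_iff_continuous_restrict]
    have hv : Continuous fun g : {g : G | gm K k g ≠ 0} => act g.1 (xinf : V K (k + 1)) :=
      (act_cont K k xinf).comp continuous_subtype_val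
    have hi : Continuous fun g : {g : G | gm K k g ≠ 0} =>
        (hf (xinf : V K (k + 1)) (act g.1 xinf))⁻¹ :=
      (hf_cont continuous_const hv).inv₀ fun g => (gm_ne K k).1 g.2
    have hz : Continuous fun g : {g : G | gm K k g ≠ 0} => pz K k (act g.1 xinf) :=
      (hf_cont continuous_const hv).mul hi
    refine unM_cont ?_ hz
    unfold pw
    exact ((((rm_cont hv hi).const_smul (-2 : ℝ)).sub continuous_const).sub
      (rm_cont continuous_const hz)).const_smul (-1 / 2 : ℝ)
  refine h1.congr fun g hg => ?_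
  have e : nu' K k g = nu K k g := if_neg hg
  show mt K k (nu' K k g) = _
  rw [e, mt_nu K k ((gm_ne K k).1 hg)]

theorem exists_U : ∃ u ∈ (Ur K k : Subgroup G), gm K k ((flip K k)⁻¹ * u * flip K k) ≠ 0 := by
  obtain ⟨w, z, ha, hz⟩ := Big.nt (G := G) (K := K) (k := k)
  refine ⟨Big.un w z, ⟨w, z, ha, Big.mat_un w z ha⟩, ?_⟩
  have h : act (Big.un w z : G) (xzero : V K (k + 1)) = xzero - (2 : ℝ) • w + rm xinf z := by
    rw [act_eq]
    show Rep.mat (Big.un w z : G) *ᵥ xzero = _
    rw [Big.mat_un w z ha, unM_xzero ha]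
  rw [gm_flip_mul_flip, h, hf_add_right, hf_sub_right, hf_smul_right, ha.zero, hf_xzero_xzero,
    hf_rm_right, hf_xzero_xinf]
  simp [hz]

/-- An element which fixes the end of `1` multiplies the null vector by a scalar. -/
theorem act_of_gm {g : G} (h : gm K k g = 0) : ∃ a : K, a ≠ 0 ∧
    act g (xinf : V K (k + 1)) = rm xinf a := by
  have h1 : hf (xinf : V K (k + 1)) (act g xinf) = 0 := by
    unfold gm at h
    have := (div_eq_zero_iff.1 h).resolve_right two_ne_zero
    exact norm_eq_zero.1 this
  have h2 := null_prop (qf_xinf (K := K) (k := k)) (qf_act_xinf K k g) xinf_ne h1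
  refine ⟨_, ?_, h2⟩
  intro h0
  rw [h0] at h2
  have h3 : act g⁻¹ (act g (xinf : V K (k + 1))) = act g⁻¹ (rm xinf 0) := by rw [h2]
  rw [act_inv_act] at h3
  have h4 : rm (xinf : V K (k + 1)) (0 : K) = 0 := by
    funext i
    exact mul_zero _
  rw [h4] at h3
  have h5 : act g⁻¹ (0 : V K (k + 1)) = 0 := mulVec_zero _
  rw [h5] at h3
  exact xinf_ne h3

theorem oo_dg (T : ℝ) : act (dg K k T : G) (e0 : V K (k + 1)) =
    (1 / 2 : ℝ) • (exp T • xinf + exp (-T) • xzero) := by
  rw [e0_eq, act_smul, act_add, act_dg_xinf, act_dg_xzero]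

theorem rho_mul_inv_dg (g : G) (S T : ℝ) : cosh (rho K k (dg K k (-T) * g * dg K k S)) =
    ‖(1 / 4 : ℝ) • ((exp T * exp S) • hf (xinf : V K (k + 1)) (act g xinf) +
      (exp T * exp (-S)) • hf (xinf : V K (k + 1)) (act g xzero) +
      ((exp (-T) * exp S) • hf (xzero : V K (k + 1)) (act g xinf) +
      (exp (-T) * exp (-S)) • hf (xzero : V K (k + 1)) (act g xzero)))‖ := by
  rw [cosh_rho, act_mul, act_mul, dg_neg, hf_inv_act, oo_dg, oo_dg, act_smul, act_add, act_smul,
    act_smul]
  simp only [hf_smul_left, hf_smul_right, hf_add_left, hf_add_right, smul_add, smul_smul]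
  congr 1
  match_scalars <;> ring

theorem end_scale (g : G) (h : gm K k g = 0) : ∃ s : ℝ,
    (∀ h, gm K k (h * g) = exp s * gm K k h) ∧ (∀ h, nm K k (h * g) = exp s * nm K k h) ∧
    Tendsto (fun T : ℝ => rho K k (dg K k (-T) * g * dg K k (T - s))) atTop (𝓝 0) := by
  obtain ⟨a, ha, hg⟩ := act_of_gm K k h
  have ha' : 0 < ‖a‖ := norm_pos_iff.2 ha
  have hes : exp (log ‖a‖) = ‖a‖ := exp_log ha'
  refine ⟨log ‖a‖, fun x => ?_, fun x => ?_, ?_⟩
  · unfold gm
    rw [act_mul, hg, act_rm, hf_rm_right, norm_mul, hes]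
    ring
  · unfold nm
    rw [act_mul, hg, act_rm, hf_rm_right, norm_mul, hes]
    ring
  · set s := log ‖a‖ with hs
    -- the pairings
    have p1 : hf (xinf : V K (k + 1)) (act g xinf) = 0 := by
      rw [hg, hf_rm_right, hf_xinf_xinf, zero_mul]
    have p3 : hf (xzero : V K (k + 1)) (act g xinf) = (-2 : ℝ) • a := by
      rw [hg, hf_rm_right, hf_xzero_xinf, smul_mul_assoc, one_mul]
    have p2 : hf (xinf : V K (k + 1)) (act g xzero) = (-2 * (exp (-s) * exp (-s))) • a := by
      have h1 := hf_act g (xinf : V K (k + 1)) xzero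
      rw [hg, hf_rm_left, hf_xinf_xzero] at h1
      have h2 : a * (star a * hf (xinf : V K (k + 1)) (act g xzero)) = (-2 : ℝ) • a := by
        rw [h1, mul_smul_comm, mul_one]
      rw [← mul_assoc, mul_star_self, smul_mul_assoc, one_mul] at h2
      have h3 : (exp (-s) * exp (-s)) * ‖a‖ ^ 2 = 1 := by
        rw [← hes, sq, ← exp_add, ← exp_add, ← exp_add]
        ring_nf
        exact exp_zero
      calc hf (xinf : V K (k + 1)) (act g xzero) =
          ((exp (-s) * exp (-s)) * ‖a‖ ^ 2) • hf (xinf : V K (k + 1)) (act g xzero) := by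
            rw [h3, one_smul]
        _ = (exp (-s) * exp (-s)) • ((‖a‖ ^ 2) • hf (xinf : V K (k + 1)) (act g xzero)) := by
            rw [smul_smul]
        _ = _ := by
            rw [h2, smul_smul]
            congr 1
            ring
    have e1 : (fun T : ℝ => rho K k (dg K k (-T) * g * dg K k (T - s))) = fun T : ℝ =>
        arcosh ‖(1 / 4 : ℝ) • ((-4 * exp (-s)) • a + (exp (-T) * exp (-(T - s))) •
          hf (xzero : V K (k + 1)) (act g xzero))‖ := by
      funext T
      rw [← arcosh_cosh (rho_nonneg K k (dg K k (-T) * g * dg K k (T - s))), rho_mul_inv_dg, p1,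
        p2, p3, smul_zero, zero_add, smul_smul, smul_smul, ← add_assoc, ← add_smul]
      congr 5
      have h1 : exp T * exp (-(T - s)) = exp s := by
        rw [← exp_add]
        congr 1
        ring
      have h2 : exp (-T) * exp (T - s) = exp (-s) := by
        rw [← exp_add]
        congr 1
        ring
      have h3 : exp s * exp (-s) = 1 := by
        rw [← exp_add, add_neg_cancel, exp_zero]
      rw [h1, h2]
      linear_combination (-2 * exp (-s)) * h3
    rw [e1]
    have hlim : Tendsto (fun T : ℝ => ‖(1 / 4 : ℝ) • ((-4 * exp (-s)) • a +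
        (exp (-T) * exp (-(T - s))) • hf (xzero : V K (k + 1)) (act g xzero))‖) atTop (𝓝 1) := by
      have h1 : Tendsto (fun T : ℝ => exp (-T) * exp (-(T - s))) atTop (𝓝 (0 * 0)) := by
        refine Tendsto.mul (tendsto_exp_neg_atTop_nhds_zero) ?_
        exact tendsto_exp_neg_atTop_nhds_zero.comp (tendsto_atTop_add_const_right _ (-s) tendsto_id)
      rw [zero_mul] at h1
      have h2 : Tendsto (fun T : ℝ => (1 / 4 : ℝ) • ((-4 * exp (-s)) • a +
          (exp (-T) * exp (-(T - s))) • hf (xzero : V K (k + 1)) (act g xzero))) atTop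
          (𝓝 ((1 / 4 : ℝ) • ((-4 * exp (-s)) • a +
            (0 : ℝ) • hf (xzero : V K (k + 1)) (act g xzero)))) :=
        (tendsto_const_nhds.add (h1.smul_const _)).const_smul _
      have h3 := h2.norm
      have h4 : ‖(1 / 4 : ℝ) • ((-4 * exp (-s)) • a +
            (0 : ℝ) • hf (xzero : V K (k + 1)) (act g xzero))‖ = 1 := by
        rw [zero_smul, add_zero, smul_smul, norm_smul, Real.norm_eq_abs]
        have : |1 / 4 * (-4 * exp (-s))| = exp (-s) := by
          have h5 : (1 / 4 * (-4 * exp (-s)) : ℝ) = -exp (-s) := by ring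
          rw [h5, abs_neg, abs_exp]
        rw [this, Real.exp_neg, ← hes, inv_mul_cancel₀ (exp_ne_zero s)]
      rwa [h4] at h3
    have hc : ContinuousWithinAt arcosh (Set.Ici 1) 1 := continuousOn_arcosh 1 Set.self_mem_Ici
    have h5 := hc.tendsto
    rw [arcosh_zero] at h5
    refine h5.comp (tendsto_nhdsWithin_iff.2 ⟨hlim, Filter.Eventually.of_forall fun T => ?_⟩)
    have h6 := congrFun e1 T
    -- the norm is a hyperbolic cosine
    have h7 := rho_mul_inv_dg K k g (T - s) T
    have h8 := one_le_cosh (rho K k (dg K k (-T) * g * dg K k (T - s)))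
    rw [h7, p1, p2, p3, smul_zero, zero_add, smul_smul, smul_smul, ← add_assoc, ← add_smul] at h8
    have h9 : (exp T * exp (-(T - s)) * (-2 * (exp (-s) * exp (-s))) +
        exp (-T) * exp (T - s) * -2) = -4 * exp (-s) := by
      have h1 : exp T * exp (-(T - s)) = exp s := by
        rw [← exp_add]
        congr 1
        ring
      have h2 : exp (-T) * exp (T - s) = exp (-s) := by
        rw [← exp_add]
        congr 1
        ring
      have h3 : exp s * exp (-s) = 1 := by
        rw [← exp_add, add_neg_cancel, exp_zero]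
      rw [h1, h2]
      linear_combination (-2 * exp (-s)) * h3
    rw [h9] at h8
    exact h8

theorem two_ends (g : G) (h : gm K k g = 0)
    (h' : gm K k ((flip K k)⁻¹ * g * flip K k) = 0) : ∃ s : ℝ, rho K k (g * dg K k (-s)) = 0 := by
  obtain ⟨a, ha, hg⟩ := act_of_gm K k h
  have ha' : 0 < ‖a‖ := norm_pos_iff.2 ha
  have hes : exp (log ‖a‖) = ‖a‖ := exp_log ha'
  set s := log ‖a‖ with hs
  refine ⟨s, rho_eq_of K k le_rfl ?_⟩
  rw [cosh_zero]
  rw [gm_flip_mul_flip] at h'
  have p4 : hf (xzero : V K (k + 1)) (act g xzero) = 0 :=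
    norm_eq_zero.1 ((div_eq_zero_iff.1 h').resolve_right two_ne_zero)
  have p1 : hf (xinf : V K (k + 1)) (act g xinf) = 0 := by
    rw [hg, hf_rm_right, hf_xinf_xinf, zero_mul]
  have p3 : hf (xzero : V K (k + 1)) (act g xinf) = (-2 : ℝ) • a := by
    rw [hg, hf_rm_right, hf_xzero_xinf, smul_mul_assoc, one_mul]
  have p2 : hf (xinf : V K (k + 1)) (act g xzero) = (-2 * (exp (-s) * exp (-s))) • a := by
    have h1 := hf_act g (xinf : V K (k + 1)) xzero
    rw [hg, hf_rm_left, hf_xinf_xzero] at h1
    have h2 : a * (star a * hf (xinf : V K (k + 1)) (act g xzero)) = (-2 : ℝ) • a := by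
      rw [h1, mul_smul_comm, mul_one]
    rw [← mul_assoc, mul_star_self, smul_mul_assoc, one_mul] at h2
    have h3 : (exp (-s) * exp (-s)) * ‖a‖ ^ 2 = 1 := by
      rw [← hes, sq, ← exp_add, ← exp_add, ← exp_add]
      ring_nf
      exact exp_zero
    calc hf (xinf : V K (k + 1)) (act g xzero) =
        ((exp (-s) * exp (-s)) * ‖a‖ ^ 2) • hf (xinf : V K (k + 1)) (act g xzero) := by
          rw [h3, one_smul]
      _ = (exp (-s) * exp (-s)) • ((‖a‖ ^ 2) • hf (xinf : V K (k + 1)) (act g xzero)) := by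
          rw [smul_smul]
      _ = _ := by
          rw [h2, smul_smul]
          congr 1
          ring
  have h7 := rho_mul_inv_dg K k g (-s) 0
  rw [neg_zero, dg_zero, one_mul] at h7
  rw [← cosh_rho, h7, p1, p2, p3, p4, smul_zero, smul_zero, zero_add, add_zero, smul_smul,
    smul_smul, ← add_smul, smul_smul, norm_smul, Real.norm_eq_abs, exp_zero, neg_neg]
  have h3 : exp s * exp (-s) = 1 := by
    rw [← exp_add, add_neg_cancel, exp_zero]
  have h8 : (1 / 4 : ℝ) * (1 * exp s * (-2 * (exp (-s) * exp (-s))) + 1 * exp (-s) * -2) =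
      -exp (-s) := by
    linear_combination (-1 / 2 * exp (-s)) * h3
  rw [h8, abs_neg, abs_exp, Real.exp_neg, ← hes, inv_mul_cancel₀ (exp_ne_zero s)]

end Pool.Agent.Helper71.CH
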