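import Pool.Agent.Helper71.CH.Bas

/-!
# Project CH: the Hilbert-Schmidt norm of matrices
-/

set_option autoImplicit false
set_option linter.unusedSectionVars false

open Matrix Real

namespace Pool.Agent.Helper71.CH

variable {K : Type} [NormedDivisionRing K] [NormedAlgebra ℝ K] [StarRing K] [Hur K] {n k : ℕ}

/-- The square of the Hilbert-Schmidt norm. -/
noncomputable def hq (M : Mat K n) : ℝ := ∑ i, ∑ j, ‖M i j‖ ^ 2

/-- The Hilbert-Schmidt norm. -/
noncomputable def hs (M : Mat K n) : ℝ := √(hq M)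

theorem hq_nonneg (M : Mat K n) : 0 ≤ hq M :=
  Finset.sum_nonneg fun _ _ => Finset.sum_nonneg fun _ _ => sq_nonneg _

theorem hs_nonneg (M : Mat K n) : 0 ≤ hs M := Real.sqrt_nonneg _

theorem hs_sq (M : Mat K n) : hs M ^ 2 = hq M := Real.sq_sqrt (hq_nonneg M)

/-- The Euclidean norm of a vector. -/
theorem eu_eq (x : V K n) : eu x = ∑ i, ‖x i‖ ^ 2 := by
  unfold eu sp
  rw [Fin.sum_univ_succ]

theorem norm_sum_mul_sq {ι : Type} (s : Finset ι) (f g : ι → K) :
    ‖∑ i ∈ s, f i * g i‖ ^ 2 ≤ (∑ i ∈ s, ‖f i‖ ^ 2) * ∑ i ∈ s, ‖g i‖ ^ 2 := by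
  have h1 : ‖∑ i ∈ s, f i * g i‖ ≤ ∑ i ∈ s, ‖f i‖ * ‖g i‖ := by
    refine (norm_sum_le _ _).trans (Finset.sum_le_sum fun i _ => ?_)
    rw [norm_mul]
  exact (pow_le_pow_left₀ (norm_nonneg _) h1 2).trans (Finset.sum_mul_sq_le_sq_mul_sq s _ _)

theorem hq_mul (M N : Mat K n) : hq (M * N) ≤ hq M * hq N := by
  unfold hq
  calc ∑ i, ∑ j, ‖(M * N) i j‖ ^ 2 ≤
        ∑ i, ∑ j, (∑ l, ‖M i l‖ ^ 2) * ∑ l, ‖N l j‖ ^ 2 := by
        refine Finset.sum_le_sum fun i _ => Finset.sum_le_sum fun j _ => ?_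
        rw [Matrix.mul_apply]
        exact norm_sum_mul_sq _ _ _
    _ = (∑ i, ∑ l, ‖M i l‖ ^ 2) * ∑ j, ∑ l, ‖N l j‖ ^ 2 := by
        rw [Finset.sum_mul_sum]
    _ = _ := by
        congr 1
        exact Finset.sum_comm

theorem hs_mul (M N : Mat K n) : hs (M * N) ≤ hs M * hs N := by
  unfold hs
  rw [← Real.sqrt_mul (hq_nonneg M)]
  exact Real.sqrt_le_sqrt (hq_mul M N)

theorem eu_mulVec (M : Mat K n) (x : V K n) : eu (M *ᵥ x) ≤ hq M * eu x := by
  rw [eu_eq, eu_eq]
  unfold hq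
  rw [Finset.sum_mul]
  refine Finset.sum_le_sum fun i _ => ?_
  exact norm_sum_mul_sq Finset.univ (fun j => M i j) x

theorem hs_continuous : Continuous (hs : Mat K n → ℝ) := by
  unfold hs hq
  refine Real.continuous_sqrt.comp ?_
  refine continuous_finsetSum _ fun i _ => continuous_finsetSum _ fun j _ => ?_
  exact ((continuous_apply_apply i j).norm).pow 2

theorem norm_hf_le_eu (x y : V K n) : ‖hf x y‖ ≤ √(eu x) * √(eu y) := by
  rw [← Real.sqrt_mul (eu_nonneg x)]
  refine (norm_hf_le x y).trans ?_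
  have h1 := sp_nonneg x
  have h2 := sp_nonneg y
  refine Real.le_sqrt_of_sq_le ?_
  unfold eu
  have h3 := Real.sq_sqrt h1
  have h4 := Real.sq_sqrt h2
  set a := √(sp x)
  set b := √(sp y)
  rw [← h3, ← h4]
  nlinarith [sq_nonneg (‖x 0‖ * b - ‖y 0‖ * a)]

theorem eu_null {v : V K n} (hv : qf v = 0) : eu v = 2 * ‖v 0‖ ^ 2 := by
  unfold eu
  rw [sp_of_null hv]
  ring

/-! ### Matrices which preserve the form -/

/-- The pairing of basis vectors. -/
def eps (i : Fin (n + 1)) : ℝ := if i = 0 then -1 else 1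

theorem hf_single_left (i : Fin (n + 1)) (x : V K n) :
    hf (Pi.single i 1 : V K n) x = eps i • x i := by
  refine Fin.cases ?_ (fun j => ?_) i
  · have h := hf_e0_left x
    unfold e0 at h
    rw [h]
    simp [eps]
  · unfold hf eps
    rw [Pi.single_eq_of_ne (Fin.succ_ne_zero j).symm, star_zero, zero_mul, neg_zero, zero_add,
      Finset.sum_eq_single j, Pi.single_eq_same, star_one, one_mul, if_neg (Fin.succ_ne_zero j),
      one_smul]
    · intro l _ hl
      rw [Pi.single_eq_of_ne (fun h => hl (Fin.succ_injective _ h)), star_zero, zero_mul]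
    · intro h
      exact absurd (Finset.mem_univ _) h

theorem hf_single_right (i : Fin (n + 1)) (x : V K n) :
    hf x (Pi.single i 1 : V K n) = eps i • star (x i) := by
  rw [← hf_star, hf_single_left, star_rsmul]

theorem eps_sq (i : Fin (n + 1)) : eps i * eps i = 1 := by
  unfold eps
  split_ifs <;> norm_num

theorem norm_eps (i : Fin (n + 1)) : |eps i| = 1 := by
  unfold eps
  split_ifs <;> norm_num

theorem mulVec_single_one' (M : Mat K n) (i j : Fin (n + 1)) :
    (M *ᵥ (Pi.single j 1 : V K n)) i = M i j := by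
  show ∑ l, M i l * (Pi.single j 1 : V K n) l = M i j
  rw [Finset.sum_eq_single j, Pi.single_eq_same, mul_one]
  · intro l _ hl
    rw [Pi.single_eq_of_ne hl, mul_zero]
  · intro h
    exact absurd (Finset.mem_univ _) h

/-- The entries of the inverse. -/
theorem inv_entry {M N : Mat K n} (hM : Pres M) (hMN : M * N = 1) (i j : Fin (n + 1)) :
    N i j = (eps i * eps j) • star (M j i) := by
  have h1 := hM (Pi.single i 1) (N *ᵥ Pi.single j 1)
  rw [mulVec_mulVec, hMN, one_mulVec, hf_single_right, hf_single_left, mulVec_single_one',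
    mulVec_single_one'] at h1
  calc N i j = (eps i * eps i) • N i j := by rw [eps_sq, one_smul]
    _ = eps i • (eps i • N i j) := by rw [smul_smul]
    _ = _ := by rw [← h1, smul_smul]

theorem hq_inv_sub_one {M N : Mat K n} (hM : Pres M) (hMN : M * N = 1) :
    hq (N - 1) = hq (M - 1) := by
  unfold hq
  rw [Finset.sum_comm]
  refine Finset.sum_congr rfl fun j _ => Finset.sum_congr rfl fun i _ => ?_
  rw [Matrix.sub_apply, Matrix.sub_apply, inv_entry hM hMN]
  congr 1
  have h1 : ‖(eps i * eps j) • (star (M j i) - (1 : Mat K n) j i)‖ = ‖star (M j i) -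
      (1 : Mat K n) j i‖ := by
    rw [norm_smul, Real.norm_eq_abs, abs_mul, norm_eps, norm_eps, one_mul, one_mul]
  have h2 : ‖star (M j i) - (1 : Mat K n) j i‖ = ‖M j i - (1 : Mat K n) j i‖ := by
    rw [← norm_star' (M j i - (1 : Mat K n) j i), star_sub]
    congr 2
    rw [Matrix.one_apply]
    split_ifs
    · rw [star_one]
    · rw [star_zero]
  rw [← h2, ← h1, smul_sub]
  congr 2
  rw [Matrix.one_apply, Matrix.one_apply]
  by_cases h : i = j
  · rw [if_pos h, if_pos h.symm, h, eps_sq, one_smul]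
  · rw [if_neg h, if_neg (Ne.symm h), smul_zero]

theorem col_zero {M : Mat K n} (hM : Pres M) : ∑ i : Fin n, ‖M i.succ 0‖ ^ 2 =
    ‖M 0 0‖ ^ 2 - 1 := by
  have h1 := hM.qf (e0 : V K n)
  rw [qf_eq, qf_e0] at h1
  unfold sp e0 at h1
  simp only [mulVec_single_one'] at h1
  linarith

theorem qf_single (j : Fin n) : qf (Pi.single j.succ 1 : V K n) = 1 := by
  unfold qf
  rw [hf_single_left, Pi.single_eq_same, re_smul_one]
  unfold eps
  rw [if_neg (Fin.succ_ne_zero j)]

theorem col_succ {M : Mat K n} (hM : Pres M) (j : Fin n) : ∑ i : Fin n, ‖M i.succ j.succ‖ ^ 2 =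
    ‖M 0 j.succ‖ ^ 2 + 1 := by
  have h1 := hM.qf (Pi.single j.succ 1 : V K n)
  rw [qf_eq, qf_single] at h1
  unfold sp at h1
  simp only [mulVec_single_one'] at h1
  linarith

/-- The Hilbert-Schmidt norm of a matrix which preserves the form. -/
theorem hq_pres {M N : Mat K n} (hM : Pres M) (hN : Pres N) (hMN : M * N = 1) :
    hq M = 4 * ‖M 0 0‖ ^ 2 + n - 3 := by
  have h1 : ∑ j : Fin n, ‖M 0 j.succ‖ ^ 2 = ‖M 0 0‖ ^ 2 - 1 := by
    have h2 := col_zero hN
    have h3 : ∀ i : Fin (n + 1), ‖N i 0‖ = ‖M 0 i‖ := by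
      intro i
      rw [inv_entry hM hMN, norm_smul, Real.norm_eq_abs, abs_mul, norm_eps, norm_eps, one_mul,
        one_mul, norm_star']
    simp only [h3] at h2
    exact h2
  unfold hq
  rw [Finset.sum_comm, Fin.sum_univ_succ]
  simp only [Fin.sum_univ_succ (fun i => ‖M i _‖ ^ 2)]
  rw [col_zero hM]
  simp only [col_succ hM]
  rw [Finset.sum_add_distrib, Finset.sum_add_distrib, h1]
  simp
  ring

end Pool.Agent.Helper71.CH
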