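import Pool.Agent.Helper71.CH.Ge
import Pool.Agent.Helper11.BR.Defs

/-!
# Project CH: the data of a group of rank one
-/

set_option autoImplicit false

open Matrix Real Topology Filter

namespace Pool.Agent.Helper71.CH

/-- A closed group of matrices over `ℝ`, `ℂ` or `ℍ` which preserve the form of signature
`(k + 1, 1)` and which contains the boosts, the unipotent matrices and a flip is a group of rank
one. -/
noncomputable def r1 (G : Type) [Group G] [TopologicalSpace G] (K : Type) [NormedDivisionRing K]
    [NormedAlgebra ℝ K] [StarRing K] [Hur K] [FiniteDimensional ℝ K] (k : ℕ) [Big G K k] :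
    Helper11.BR.R1 G where
  rho := rho K k
  rho_one := rho_one K k
  rho_inv := rho_inv K k
  rho_mul := rho_mul K k
  rho_cont := rho_cont K k
  proper := proper K k
  dg := dg K k
  dg_add := dg_add K k
  dg_cont := dg_cont K k
  rho_dg := rho_dg K k
  flip := flip K k
  rho_flip := rho_flip K k
  flip_dg := flip_dg K k
  gam := gm K k
  gam_cont := gm_cont K k
  gam_nonneg := gm_nonneg K k
  gam_inv := gm_inv K k
  gam_dg := gm_dg K k
  gam_one := gm_one K k
  gam_flip := gm_flip K k
  gam_flip_flip := gm_flip_flip K k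
  ptol := ptol K k
  nm := nm K k
  nm_cont := nm_cont K k
  nm_one := nm_one K k
  nm_dg := nm_dg K k
  nm_mul := nm_mul K k
  nm_le := nm_le K k
  gam_le_mul := gm_le_mul K k
  rho_le := rho_le K k
  U := Ur K k
  U_dg := Ur_dg K k
  gam_U := gm_Ur K k
  nm_U := nm_Ur K k
  nu := nu' K k
  nu_mem := nu_mem K k
  nu_end := nu_end K k
  nu_cont := nu_cont K k
  end_scale := end_scale K k
  two_ends := two_ends K k
  exists_U := exists_U K k
  E := Ed K k
  E_cont := Ed_cont K k
  E_one := Ed_one K k
  rho_le_E := rho_le_Ed K k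
  cE := (k : ℝ) + 5
  one_le_cE := by
    have : (0 : ℝ) ≤ k := by positivity
    linarith
  E_conj := Ed_conj K k
  E_inv := Ed_inv K k
  E_dg := Ed_dg K k
  E_sinh := Ed_sinh K k
  E_sq := Ed_sq K k
  E_pair := Ed_pair K k
  polar := polar K k
  rad := fun κ hκ j r r' hj hr hr' => rad K k κ hκ j r r' hj hr hr'

end Pool.Agent.Helper71.CH
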