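import Pool.Agent.Helper71.CH.Inst

/-!
# Project CH: the group `SU(n,1)`
-/

set_option autoImplicit false

open Matrix Real Topology Filter

namespace Pool.Agent.Helper71.CH

/-- The group `SU(n,1)`: the complex matrices of determinant one which preserve the form
`-(star (x 0) * y 0) + ∑ star (x i) * y i`, with the topology of the group of matrices. -/
def SUg (n : ℕ) : Subgroup (Matrix.SpecialLinearGroup (Fin (n + 1)) ℂ) where
  carrier := {g | ∀ x y : V ℂ n, hf (g.1 *ᵥ x) (g.1 *ᵥ y) = hf x y}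
  mul_mem' {a b} ha hb x y := by
    rw [Matrix.SpecialLinearGroup.coe_mul, ← Matrix.mulVec_mulVec, ← Matrix.mulVec_mulVec, ha, hb]
  one_mem' x y := by
    rw [Matrix.SpecialLinearGroup.coe_one, Matrix.one_mulVec, Matrix.one_mulVec]
  inv_mem' {a} ha x y := by
    have h : ∀ z : V ℂ n, a.1 *ᵥ ((a⁻¹).1 *ᵥ z) = z := by
      intro z
      rw [Matrix.mulVec_mulVec, ← Matrix.SpecialLinearGroup.coe_mul, mul_inv_cancel,
        Matrix.SpecialLinearGroup.coe_one, Matrix.one_mulVec]
    rw [← ha, h, h]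

section det

variable {k : ℕ}

/-- The determinant of a real matrix which preserves the form. -/
theorem det_sq_real {n : ℕ} {M : Mat ℝ n} (h : Pres M) : M.det ^ 2 = 1 := by
  have h1 : Mᵀ * diagonal (eps : Fin (n + 1) → ℝ) * M = diagonal eps := by
    ext i j
    have h2 := h (Pi.single i 1) (Pi.single j 1)
    rw [hf_single_left] at h2
    have h3 : hf (M *ᵥ (Pi.single i 1 : V ℝ n)) (M *ᵥ (Pi.single j 1 : V ℝ n)) =
        (Mᵀ * diagonal (eps : Fin (n + 1) → ℝ) * M) i j := by
      unfold hf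
      rw [Matrix.mul_apply, Fin.sum_univ_succ]
      simp only [Matrix.mul_diagonal, Matrix.transpose_apply, mulVec_single_one', eps, if_true,
        Fin.succ_ne_zero, if_false, star_trivial]
      congr 1
      · ring
      · exact Finset.sum_congr rfl fun l _ => by ring
    rw [← h3, h2, Matrix.diagonal_apply, smul_eq_mul]
    by_cases hij : i = j
    · rw [hij, if_pos rfl, Pi.single_eq_same, mul_one]
    · rw [if_neg hij, Pi.single_eq_of_ne hij, mul_zero]
  have h4 := congrArg det h1
  rw [det_mul, det_mul, det_transpose] at h4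
  have h5 : (diagonal (eps : Fin (n + 1) → ℝ)).det ≠ 0 := by
    rw [det_diagonal]
    refine Finset.prod_ne_zero_iff.2 fun i _ => ?_
    unfold eps
    split_ifs <;> norm_num
  have h6 : M.det ^ 2 * (diagonal (eps : Fin (n + 1) → ℝ)).det =
      1 * (diagonal (eps : Fin (n + 1) → ℝ)).det := by
    rw [one_mul]
    calc M.det ^ 2 * (diagonal (eps : Fin (n + 1) → ℝ)).det =
        M.det * (diagonal (eps : Fin (n + 1) → ℝ)).det * M.det := by ring
      _ = _ := h4
  exact mul_right_cancel₀ h5 h6

theorem det_boM_real (τ : ℝ) : (boM k τ : Mat ℝ (k + 1)).det = 1 := by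
  have h := det_sq_real (boM_pres (K := ℝ) (k := k) (τ / 2))
  rw [← add_halves τ, ← boM_mul, det_mul, ← sq, h]

theorem boM_map (τ : ℝ) : (boM k τ : Mat ℂ (k + 1)) =
    (boM k τ : Mat ℝ (k + 1)).map Complex.ofRealHom := by
  ext i j
  unfold boM
  simp only [Matrix.add_apply, Matrix.map_apply, rk_apply, Jv, map_add]
  have h1 : ∀ i : Fin (k + 2), (e0 : V ℂ (k + 1)) i = Complex.ofRealHom ((e0 : V ℝ (k + 1)) i) := by
    intro i
    unfold e0
    by_cases h : i = 0
    · rw [h, Pi.single_eq_same, Pi.single_eq_same, map_one]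
    · rw [Pi.single_eq_of_ne h, Pi.single_eq_of_ne h, map_zero]
  have h2 : ∀ i : Fin (k + 2), (e1 : V ℂ (k + 1)) i = Complex.ofRealHom ((e1 : V ℝ (k + 1)) i) := by
    intro i
    unfold e1
    by_cases h : i = 1
    · rw [h, Pi.single_eq_same, Pi.single_eq_same, map_one]
    · rw [Pi.single_eq_of_ne h, Pi.single_eq_of_ne h, map_zero]
  have h3 : ∀ i j : Fin (k + 2), (1 : Mat ℂ (k + 1)) i j =
      Complex.ofRealHom ((1 : Mat ℝ (k + 1)) i j) := by
    intro i j
    rw [Matrix.one_apply, Matrix.one_apply]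
    split_ifs <;> simp
  have hc : (starRingEnd ℂ) (Complex.cosh (τ : ℂ)) = Complex.cosh (τ : ℂ) := by
    rw [← Complex.ofReal_cosh, Complex.conj_ofReal]
  have hs : (starRingEnd ℂ) (Complex.sinh (τ : ℂ)) = Complex.sinh (τ : ℂ) := by
    rw [← Complex.ofReal_sinh, Complex.conj_ofReal]
  rw [h3, h1 i, h2 i]
  by_cases hj : j = 0
  · simp only [hj, if_true, Pi.add_apply, Pi.smul_apply, h1 0, h2 0]
    simp [hc, hs]
  · simp only [hj, if_false, Pi.add_apply, Pi.smul_apply, h1 j, h2 j]
    simp [hc, hs]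

theorem det_boM (τ : ℝ) : (boM k τ : Mat ℂ (k + 1)).det = 1 := by
  rw [boM_map]
  have := RingHom.map_det Complex.ofRealHom (boM k τ : Mat ℝ (k + 1))
  rw [det_boM_real, map_one] at this
  exact this.symm

theorem det_unM {w : V ℂ (k + 1)} {z : ℂ} (h : Adm w z) : (unM w z).det = 1 := by
  have h1 : ∀ τ : ℝ, (unM (exp (-τ) • w) (exp (-τ) ^ 2 • z)).det = (unM w z).det := by
    intro τ
    rw [← boM_unM h, det_mul, det_mul, det_boM, det_boM, one_mul, mul_one]
  have h2 : Tendsto (fun τ : ℝ => (unM (exp (-τ) • w) (exp (-τ) ^ 2 • z)).det) atTop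
      (𝓝 (unM (0 : V ℂ (k + 1)) (0 : ℂ)).det) := by
    have hc : Continuous fun c : ℝ => (unM (c • w) (c ^ 2 • z)).det :=
      (unM_cont (continuous_id.smul continuous_const)
        ((continuous_id.pow 2).smul continuous_const)).matrix_det
    have h3 := (hc.tendsto 0).comp tendsto_exp_neg_atTop_nhds_zero
    have h4 : ((0 : ℝ) • w) = 0 := zero_smul _ _
    have h5 : ((0 : ℝ) ^ 2 • z) = 0 := by simp
    rw [h4, h5] at h3
    exact h3
  have h3 : Tendsto (fun τ : ℝ => (unM (exp (-τ) • w) (exp (-τ) ^ 2 • z)).det) atTop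
      (𝓝 (unM w z).det) := by
    simp only [h1]
    exact tendsto_const_nhds
  have h4 := tendsto_nhds_unique h3 h2
  rw [h4, unM_zero, det_one]

/-- The flip of `SU(n,1)`. -/
noncomputable def flM (k : ℕ) : Mat ℂ (k + 1) :=
  diagonal fun i => if i = 0 then Complex.I else if i = 1 then -Complex.I else 1

theorem flM_mulVec (x : V ℂ (k + 1)) (i : Fin (k + 2)) : (flM k *ᵥ x) i =
    (if i = 0 then Complex.I else if i = 1 then -Complex.I else 1) * x i := by
  unfold flM
  rw [mulVec_diagonal]

theorem det_flM : (flM k).det = 1 := by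
  unfold flM
  rw [det_diagonal, Fin.prod_univ_succ, Fin.prod_univ_succ]
  have h1 : ∀ i : Fin k, ((i.succ.succ : Fin (k + 2)) = 1) = False := by
    intro i
    apply propext
    constructor
    · intro h
      have := congrArg Fin.val h
      simp at this
    · exact False.elim
  have h2 : ((Fin.succ 0 : Fin (k + 2)) = 1) = True := by simp
  simp [h1, Fin.succ_ne_zero]

theorem flM_pres : Pres (flM k) := by
  intro x y
  unfold hf
  simp only [flM_mulVec, if_true, Fin.succ_ne_zero, if_false]
  congr 1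
  · simp only [star_mul', Complex.star_def, Complex.conj_I]
    have := Complex.I_mul_I
    ring_nf
    rw [Complex.I_sq]
    ring
  · refine Finset.sum_congr rfl fun i _ => ?_
    split_ifs
    · simp only [star_mul', Complex.star_def, map_neg, Complex.conj_I, neg_neg]
      ring_nf
      rw [Complex.I_sq]
      ring
    · rw [one_mul, one_mul]

end det

noncomputable instance (k : ℕ) : Big (SUg (k + 1)) ℂ k where
  mat := { toFun := fun g => g.1.1, map_one' := rfl, map_mul' := fun _ _ => rfl }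
  pres g := g.2
  emb := by
    have h1 : IsClosed ((SUg (k + 1) : Subgroup _) :
        Set (Matrix.SpecialLinearGroup (Fin (k + 1 + 1)) ℂ)) := by
      have h2 : ((SUg (k + 1) : Subgroup _) :
          Set (Matrix.SpecialLinearGroup (Fin (k + 1 + 1)) ℂ)) =
          ⋂ x : V ℂ (k + 1), ⋂ y : V ℂ (k + 1), {g | hf (g.1 *ᵥ x) (g.1 *ᵥ y) = hf x y} := by
        ext g
        simp only [Set.mem_iInter]
        rfl
      rw [h2]
      refine isClosed_iInter fun x => isClosed_iInter fun y => isClosed_eq ?_ continuous_const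
      have h3 : Continuous fun g : Matrix.SpecialLinearGroup (Fin (k + 1 + 1)) ℂ => g.1 :=
        continuous_subtype_val
      exact hf_cont (h3.matrix_mulVec continuous_const) (h3.matrix_mulVec continuous_const)
    exact (Matrix.SpecialLinearGroup.isClosedEmbedding_val).comp h1.isClosedEmbedding_subtypeVal
  bo τ := ⟨⟨boM k τ, det_boM τ⟩, boM_pres τ⟩
  mat_bo _ := rfl
  un w z := by
    classical
    exact if h : Adm w z then ⟨⟨unM w z, det_unM h⟩, unM_pres h⟩ else 1
  mat_un w z h := by
    rw [dif_pos h]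
    rfl
  fl := ⟨⟨flM k, det_flM⟩, flM_pres⟩
  fa := Complex.I
  norm_fa := Complex.norm_I
  fl_e0 := by
    funext i
    show (flM k *ᵥ (e0 : V ℂ (k + 1))) i = (e0 : V ℂ (k + 1)) i * Complex.I
    rw [flM_mulVec]
    unfold e0
    by_cases h : i = 0
    · rw [h, if_pos rfl, Pi.single_eq_same, mul_comm]
    · rw [Pi.single_eq_of_ne h, mul_zero, zero_mul]
  fl_e1 := by
    funext i
    show (flM k *ᵥ (e1 : V ℂ (k + 1))) i = (e1 : V ℂ (k + 1)) i * -Complex.I
    rw [flM_mulVec]
    unfold e1
    by_cases h : i = 1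
    · rw [h, if_neg (one_ne_zero), if_pos rfl, Pi.single_eq_same, mul_comm]
    · rw [Pi.single_eq_of_ne h, mul_zero, zero_mul]
  nt := by
    refine ⟨0, Complex.I, ⟨hf_zero_right _, hf_zero_right _, ?_⟩, Complex.I_ne_zero⟩
    unfold qf
    rw [hf_zero_left, re_zero]
    exact Complex.I_re

/-- `SU(n,1)` is a group of rank one. -/
noncomputable def r1SU (k : ℕ) : Helper11.BR.R1 (SUg (k + 1)) := r1 (SUg (k + 1)) ℂ k

end Pool.Agent.Helper71.CH
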