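import Mathlib

/-!
# Project CH: the real division algebras

A class which contains the real numbers, the complex numbers and the quaternions.
-/

set_option autoImplicit false
set_option linter.unusedSectionVars false

namespace Pool.Agent.Helper71.CH

/-- Normed division algebras over the reals with a conjugation. -/
class Hur (K : Type) [NormedDivisionRing K] [NormedAlgebra ℝ K] [StarRing K] where
  re : K →ₗ[ℝ] ℝ
  add_star' : ∀ a : K, a + star a = (2 * re a) • (1 : K)
  star_mul_self' : ∀ a : K, star a * a = (‖a‖ ^ 2) • (1 : K)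

variable {K : Type} [NormedDivisionRing K] [NormedAlgebra ℝ K] [StarRing K] [Hur K]

/-- The real part. -/
noncomputable def re (a : K) : ℝ := Hur.re a

theorem add_star (a : K) : a + star a = (2 * re a) • (1 : K) := Hur.add_star' a

theorem star_mul_self (a : K) : star a * a = (‖a‖ ^ 2) • (1 : K) := Hur.star_mul_self' a

theorem re_add (a b : K) : re (a + b) = re a + re b := map_add Hur.re a b

theorem re_sub (a b : K) : re (a - b) = re a - re b := map_sub Hur.re a b

theorem re_neg (a : K) : re (-a) = -re a := map_neg Hur.re a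

theorem re_zero : re (0 : K) = 0 := map_zero Hur.re

theorem re_smul (c : ℝ) (a : K) : re (c • a) = c * re a := map_smul Hur.re c a

theorem re_sum {ι : Type*} (s : Finset ι) (f : ι → K) : re (∑ i ∈ s, f i) = ∑ i ∈ s, re (f i) :=
  map_sum Hur.re f s

theorem smul_one_inj {r s : ℝ} (h : r • (1 : K) = s • (1 : K)) : r = s :=
  smul_left_injective ℝ (one_ne_zero : (1 : K) ≠ 0) h

theorem re_one : re (1 : K) = 1 := by
  have h := add_star (1 : K)
  rw [star_one, ← two_smul ℝ (1 : K)] at h
  have := smul_one_inj h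
  linarith

theorem star_eq (a : K) : star a = (2 * re a) • (1 : K) - a := by
  rw [← add_star a]
  abel

theorem re_star (a : K) : re (star a) = re a := by
  rw [star_eq, re_sub, re_smul, re_one]
  ring

theorem re_smul_one (c : ℝ) : re (c • (1 : K)) = c := by
  rw [re_smul, re_one, mul_one]

theorem star_rsmul (c : ℝ) (a : K) : star (c • a) = c • star a := by
  rw [star_eq, star_eq, re_smul, smul_sub, smul_smul]
  congr 2
  ring

theorem mul_star_self (a : K) : a * star a = (‖a‖ ^ 2) • (1 : K) := by
  rw [← star_mul_self a, star_eq, mul_sub, sub_mul, mul_smul_comm, smul_mul_assoc, mul_one,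
    one_mul]

theorem norm_smul_one (c : ℝ) : ‖c • (1 : K)‖ = |c| := by
  rw [norm_smul, norm_one, mul_one, Real.norm_eq_abs]

theorem norm_star' (a : K) : ‖star a‖ = ‖a‖ := by
  by_cases h : a = 0
  · rw [h, star_zero]
  · have h1 := congrArg norm (star_mul_self a)
    rw [norm_mul, norm_smul_one, abs_of_nonneg (sq_nonneg _), sq] at h1
    exact mul_right_cancel₀ (norm_ne_zero_iff.2 h) h1

theorem re_self_star (a : K) : re (star a * a) = ‖a‖ ^ 2 := by
  rw [star_mul_self, re_smul_one]

theorem re_mul_star_self (a : K) : re (a * star a) = ‖a‖ ^ 2 := by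
  rw [mul_star_self, re_smul_one]

theorem re_mul_comm (a b : K) : re (a * b) = re (b * a) := by
  by_cases h : a = 0
  · rw [h, zero_mul, mul_zero]
  · have hn : (‖a‖ ^ 2 : ℝ) ≠ 0 := pow_ne_zero 2 (norm_ne_zero_iff.2 h)
    have e1 : star a * (a * b + star (a * b)) * a = (2 * re (a * b)) • (star a * a) := by
      rw [add_star, mul_smul_comm, mul_one, smul_mul_assoc]
    have e2 : star a * (a * b + star (a * b)) * a = (‖a‖ ^ 2) • (b * a + star (b * a)) := by
      rw [mul_add, add_mul, star_mul, star_mul, smul_add]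
      congr 1
      · rw [← mul_assoc, star_mul_self, smul_mul_assoc, one_mul, smul_mul_assoc]
      · rw [mul_assoc, mul_assoc, star_mul_self, mul_smul_comm, mul_one, mul_smul_comm]
    rw [e1, add_star, star_mul_self, smul_smul, smul_smul] at e2
    have e3 := smul_one_inj e2
    have e4 : (‖a‖ ^ 2) * re (a * b) = (‖a‖ ^ 2) * re (b * a) := by linarith
    exact mul_left_cancel₀ hn e4

theorem abs_re_le (a : K) : |re a| ≤ ‖a‖ := by
  have h1 := congrArg norm (add_star a)
  rw [norm_smul_one, abs_mul, abs_two] at h1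
  have h2 := norm_add_le a (star a)
  rw [norm_star'] at h2
  linarith

theorem re_le (a : K) : re a ≤ ‖a‖ := (le_abs_self _).trans (abs_re_le a)

theorem norm_add_sq' (a b : K) : ‖a + b‖ ^ 2 = ‖a‖ ^ 2 + 2 * re (star a * b) + ‖b‖ ^ 2 := by
  have h1 := re_self_star (a + b)
  have h2 : re (star b * a) = re (star a * b) := by
    rw [← re_star, star_mul, star_star]
  rw [star_add, add_mul, mul_add, mul_add, re_add, re_add, re_add, re_self_star, re_self_star,
    h2] at h1
  linarith

theorem norm_sub_sq' (a b : K) : ‖a - b‖ ^ 2 = ‖a‖ ^ 2 - 2 * re (star a * b) + ‖b‖ ^ 2 := by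
  have h := norm_add_sq' a (-b)
  rw [← sub_eq_add_neg, mul_neg, re_neg, norm_neg] at h
  linarith

/-- An element with real part equal to its norm is real. -/
theorem eq_of_re_eq_norm {a : K} (h : re a = ‖a‖) : a = ‖a‖ • (1 : K) := by
  have h1 := norm_sub_sq' a (‖a‖ • (1 : K))
  rw [mul_smul_comm, mul_one, re_smul, re_star, h, norm_smul_one, abs_norm] at h1
  have h2 : ‖a - ‖a‖ • (1 : K)‖ ^ 2 = 0 := by
    rw [h1]
    ring
  have h3 := pow_eq_zero_iff (two_ne_zero) |>.1 h2
  exact sub_eq_zero.1 (norm_eq_zero.1 h3)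

theorem star_eq_inv {a : K} (h : ‖a‖ = 1) : star a * a = 1 := by
  rw [star_mul_self, h]
  simp

theorem mul_star_eq_one {a : K} (h : ‖a‖ = 1) : a * star a = 1 := by
  rw [mul_star_self, h]
  simp

/-- The unit scalar which makes `a` real. -/
noncomputable def ph (a : K) : K := ‖a‖⁻¹ • star a

theorem norm_ph {a : K} (h : a ≠ 0) : ‖ph a‖ = 1 := by
  unfold ph
  rw [norm_smul, norm_star', norm_inv, norm_norm, inv_mul_cancel₀ (norm_ne_zero_iff.2 h)]

theorem mul_ph (a : K) : a * ph a = ‖a‖ • (1 : K) := by
  unfold ph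
  rw [mul_smul_comm, mul_star_self, smul_smul]
  by_cases h : ‖a‖ = 0
  · rw [h]
    simp
  · congr 1
    field_simp

theorem ph_mul_self (a : K) : ph a * a = ‖a‖ • (1 : K) := by
  unfold ph
  rw [smul_mul_assoc, star_mul_self, smul_smul]
  by_cases h : ‖a‖ = 0
  · rw [h]
    simp
  · congr 1
    field_simp

theorem ph_mul (a b : K) (hb : ‖b‖ = 1) : ph (a * b) = star b * ph a := by
  unfold ph
  rw [norm_mul, hb, mul_one, star_mul, mul_smul_comm]

theorem ph_real {a : K} (h : a = ‖a‖ • (1 : K)) (h0 : a ≠ 0) : ph a = 1 := by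
  have h1 : ‖a‖ ≠ 0 := norm_ne_zero_iff.2 h0
  unfold ph
  conv_lhs => rw [h]
  rw [star_rsmul, star_one, smul_smul, norm_smul_one, abs_norm, inv_mul_cancel₀ h1, one_smul]

/-! ### Instances -/

noncomputable instance : Hur ℝ where
  re := LinearMap.id
  add_star' a := by
    simp
    ring
  star_mul_self' a := by
    simp
    ring

noncomputable instance : Hur ℂ where
  re := Complex.reLm
  add_star' a := by
    apply Complex.ext <;> simp
    ring
  star_mul_self' a := by
    have h := Complex.normSq_eq_conj_mul_self (z := a)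
    rw [Complex.normSq_eq_norm_sq] at h
    rw [Complex.star_def, ← h]
    simp

theorem quat_coe (r : ℝ) : (r : Quaternion ℝ) = r • (1 : Quaternion ℝ) := by
  rw [← Quaternion.coe_mul_eq_smul, mul_one]

noncomputable instance : Hur (Quaternion ℝ) where
  re := { toFun := fun a => a.re, map_add' := fun _ _ => rfl, map_smul' := fun _ _ => rfl }
  add_star' a := by
    rw [Quaternion.self_add_star', quat_coe]
    rfl
  star_mul_self' a := by
    rw [Quaternion.star_mul_self, Quaternion.normSq_eq_norm_mul_self, quat_coe, sq]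

end Pool.Agent.Helper71.CH
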