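import Pool.Agent.Helper71.CH.Sp

/-!
# Project CH: null vectors
-/

set_option autoImplicit false
set_option linter.unusedSectionVars false

open Matrix Real

namespace Pool.Agent.Helper71.CH

variable {K : Type} [NormedDivisionRing K] [NormedAlgebra ℝ K] [StarRing K] [Hur K] {n : ℕ}

/-- The Euclidean norm. -/
noncomputable def eu (x : V K n) : ℝ := ‖x 0‖ ^ 2 + sp x

theorem eu_nonneg (x : V K n) : 0 ≤ eu x := add_nonneg (sq_nonneg _) (sp_nonneg x)

theorem sp_of_null {v : V K n} (hv : qf v = 0) : sp v = ‖v 0‖ ^ 2 := by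
  rw [qf_eq] at hv
  linarith

theorem norm_sum_le_of (x y : V K n) : ‖∑ i : Fin n, star (x i.succ) * y i.succ‖ ≤
    √(sp x) * √(sp y) := by
  rw [← Real.sqrt_mul (sp_nonneg x)]
  exact Real.le_sqrt_of_sq_le (cs x y)

theorem norm_hf_le (x y : V K n) : ‖hf x y‖ ≤ ‖x 0‖ * ‖y 0‖ + √(sp x) * √(sp y) := by
  unfold hf
  refine (norm_add_le _ _).trans (add_le_add ?_ (norm_sum_le_of x y))
  rw [norm_neg, norm_mul, norm_star']

theorem norm_hf_null {v w : V K n} (hv : qf v = 0) (hw : qf w = 0) :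
    ‖hf v w‖ ≤ 2 * (‖v 0‖ * ‖w 0‖) := by
  have h := norm_hf_le v w
  rw [sp_of_null hv, sp_of_null hw, Real.sqrt_sq (norm_nonneg _),
    Real.sqrt_sq (norm_nonneg _)] at h
  linarith

/-- A null vector with vanishing first coordinate is zero. -/
theorem null_eq_zero {v : V K n} (hv : qf v = 0) (h0 : v 0 = 0) : v = 0 := by
  have h1 := sp_of_null hv
  rw [h0, norm_zero] at h1
  have h3 : sp v = 0 := by rw [h1]; ring
  funext i
  refine Fin.cases h0 (fun j => ?_) i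
  have h4 := (Finset.sum_eq_zero_iff_of_nonneg (fun i _ => sq_nonneg _)).1 h3 j
    (Finset.mem_univ j)
  exact norm_eq_zero.1 ((pow_eq_zero_iff two_ne_zero).1 h4)

/-- Orthogonal null vectors are proportional. -/
theorem null_prop {v w : V K n} (hv : qf v = 0) (hw : qf w = 0) (hv0 : v ≠ 0)
    (h : hf v w = 0) : w = rm v ((v 0)⁻¹ * w 0) := by
  have h0 : v 0 ≠ 0 := fun h0 => hv0 (null_eq_zero hv h0)
  set c := (v 0)⁻¹ * w 0 with hc
  have h1 : qf (w - rm v c) = 0 := by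
    rw [qf_sub, hw, qf_rm, hv, hf_rm_right, ← hf_star v w, h]
    simp [re_zero]
  have h2 : (w - rm v c) 0 = 0 := by
    rw [Pi.sub_apply, rm_apply, hc, ← mul_assoc, mul_inv_cancel₀ h0, one_mul, sub_self]
  exact sub_eq_zero.1 (null_eq_zero h1 h2)

theorem hf_null_ne {p v : V K n} (hp : qf p = -1) (hv : qf v = 0) (hv0 : v ≠ 0) : hf p v ≠ 0 := by
  intro h
  exact hv0 (eq_zero_of_orth hp h hv)

/-- Comparison of the pairings of a null vector with two points. -/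
theorem null_le {v p q : V K n} (hp : qf p = -1) (hq : qf q = -1) (hv : qf v = 0) :
    ‖hf q v‖ ≤ (‖hf p q‖ + √(‖hf p q‖ ^ 2 - 1)) * ‖hf p v‖ := by
  have e1 := hf_proj hp q
  have e2 := hf_proj hp v
  have e3 := cs_orth hp e1 e2
  rw [qf_proj hp, qf_proj hp, hq, hv, zero_add] at e3
  have e4 : hf (q + rm p (hf p q)) (v + rm p (hf p v)) = hf q v + hf q p * hf p v := by
    rw [hf_add_left, hf_rm_left, e2, mul_zero, add_zero, hf_add_right, hf_rm_right]
  rw [e4] at e3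
  have h1 := one_le_hf hp hq
  have e7 : 0 ≤ ‖hf p q‖ ^ 2 - 1 := by nlinarith
  have e9 : ‖hf q v + hf q p * hf p v‖ ≤ √(‖hf p q‖ ^ 2 - 1) * ‖hf p v‖ := by
    rw [← Real.sqrt_sq (norm_nonneg (hf p v)), ← Real.sqrt_mul e7]
    refine Real.le_sqrt_of_sq_le (e3.trans (le_of_eq ?_))
    ring
  have e10 : ‖hf q v‖ ≤ ‖hf q v + hf q p * hf p v‖ + ‖hf q p * hf p v‖ := by
    have := norm_sub_le (hf q v + hf q p * hf p v) (hf q p * hf p v)
    rwa [add_sub_cancel_right] at this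
  rw [norm_mul, norm_hf_comm q p] at e10
  linarith

theorem exp_dist_eq (p q : X K n) : exp (dist p q) = ‖hf p.1 q.1‖ + √(‖hf p.1 q.1‖ ^ 2 - 1) := by
  rw [← cosh_dist, ← sinh_sq, Real.sqrt_sq (sinh_nonneg_iff.2 dist_nonneg), cosh_add_sinh]

theorem null_le_exp {v : V K n} (p q : X K n) (hv : qf v = 0) :
    ‖hf q.1 v‖ ≤ exp (dist p q) * ‖hf p.1 v‖ := by
  rw [exp_dist_eq]
  exact null_le p.self q.self hv

theorem null_ge_exp {v : V K n} (p q : X K n) (hv : qf v = 0) :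
    exp (-dist p q) * ‖hf p.1 v‖ ≤ ‖hf q.1 v‖ := by
  have h1 := null_le_exp q p hv
  rw [dist_comm] at h1
  have h2 := mul_le_mul_of_nonneg_left h1 (exp_pos (-dist p q)).le
  rwa [← mul_assoc, ← exp_add, neg_add_cancel, exp_zero, one_mul] at h2

/-- A vector orthogonal to two null vectors with nonzero pairing is not negative. -/
theorem qf_nonneg_of_null {c d w : V K n} (hc : qf c = 0) (hd : qf d = 0) (h : hf c d ≠ 0)
    (hcw : hf c w = 0) (hdw : hf d w = 0) : 0 ≤ qf w := by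
  -- `c + d a` is negative for a suitable `a`
  obtain ⟨p, hp, hpw⟩ : ∃ p : V K n, qf p = -1 ∧ hf p w = 0 := by
    have hn : ‖hf c d‖ ≠ 0 := norm_ne_zero_iff.2 h
    have hn' : 0 < ‖hf c d‖ := norm_pos_iff.2 h
    set a : K := -((2 * ‖hf c d‖)⁻¹ • ph (hf c d)) with ha
    have h1 : hf c (rm d a) = -((1 / 2 : ℝ) • (1 : K)) := by
      rw [hf_rm_right, ha, mul_neg, mul_smul_comm, mul_ph, smul_smul]
      congr 2
      field_simp
    refine ⟨c + rm d a, ?_, ?_⟩
    · rw [qf_add, hc, qf_rm, hd, h1, re_neg, re_smul_one]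
      ring
    · rw [hf_add_left, hf_rm_left, hcw, hdw, mul_zero, add_zero]
  exact qf_nonneg_of_orth hp hpw

theorem cs_null {c d w w' : V K n} (hc : qf c = 0) (hd : qf d = 0) (h : hf c d ≠ 0)
    (hcw : hf c w = 0) (hdw : hf d w = 0) (hcw' : hf c w' = 0) (hdw' : hf d w' = 0) :
    ‖hf w w'‖ ^ 2 ≤ qf w * qf w' := by
  obtain ⟨p, hp, hpw, hpw'⟩ : ∃ p : V K n, qf p = -1 ∧ hf p w = 0 ∧ hf p w' = 0 := by
    have hn : ‖hf c d‖ ≠ 0 := norm_ne_zero_iff.2 h
    set a : K := -((2 * ‖hf c d‖)⁻¹ • ph (hf c d)) with ha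
    have h1 : hf c (rm d a) = -((1 / 2 : ℝ) • (1 : K)) := by
      rw [hf_rm_right, ha, mul_neg, mul_smul_comm, mul_ph, smul_smul]
      congr 2
      field_simp
    refine ⟨c + rm d a, ?_, ?_, ?_⟩
    · rw [qf_add, hc, qf_rm, hd, h1, re_neg, re_smul_one]
      ring
    · rw [hf_add_left, hf_rm_left, hcw, hdw, mul_zero, add_zero]
    · rw [hf_add_left, hf_rm_left, hcw', hdw', mul_zero, add_zero]
  exact cs_orth hp hpw hpw'

/-- Decomposition with respect to two null vectors. -/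
theorem null_decomp {c d : V K n} (hc : qf c = 0) (hd : qf d = 0) (h : hf c d ≠ 0) (a : V K n) :
    ∃ w : V K n, hf c w = 0 ∧ hf d w = 0 ∧
      a = rm c ((hf d c)⁻¹ * hf d a) + rm d ((hf c d)⁻¹ * hf c a) + w := by
  have h' : hf d c ≠ 0 := by
    intro h0
    apply h
    rw [← hf_star d c, h0, star_zero]
  have hcc : hf c c = 0 := by rw [hf_self, hc, zero_smul]
  have hdd : hf d d = 0 := by rw [hf_self, hd, zero_smul]
  refine ⟨a - (rm c ((hf d c)⁻¹ * hf d a) + rm d ((hf c d)⁻¹ * hf c a)), ?_, ?_, ?_⟩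
  · rw [hf_sub_right, hf_add_right, hf_rm_right, hf_rm_right, hcc, zero_mul, zero_add,
      ← mul_assoc, mul_inv_cancel₀ h, one_mul, sub_self]
  · rw [hf_sub_right, hf_add_right, hf_rm_right, hf_rm_right, hdd, zero_mul, add_zero,
      ← mul_assoc, mul_inv_cancel₀ h', one_mul, sub_self]
  · abel

/-- Ptolemy's inequality. -/
theorem ptolemy {a b c d : V K n} (ha : qf a = 0) (hb : qf b = 0) (hc : qf c = 0)
    (hd : qf d = 0) (hcd : hf c d ≠ 0) :
    √(‖hf a b‖ * ‖hf c d‖) ≤ √(‖hf a c‖ * ‖hf d b‖) + √(‖hf a d‖ * ‖hf c b‖) := by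
  obtain ⟨w, hw1, hw2, hw⟩ := null_decomp hc hd hcd a
  obtain ⟨w', hw1', hw2', hw'⟩ := null_decomp hc hd hcd b
  have hcc : hf c c = 0 := by rw [hf_self, hc, zero_smul]
  have hdd : hf d d = 0 := by rw [hf_self, hd, zero_smul]
  have hm : 0 < ‖hf c d‖ := norm_pos_iff.2 hcd
  set m := ‖hf c d‖ with hmd
  have hm' : ‖hf d c‖ = m := by rw [norm_hf_comm, hmd]
  -- the space parts
  have key : ∀ (x u : V K n), qf x = 0 → hf c u = 0 → hf d u = 0 →
      x = rm c ((hf d c)⁻¹ * hf d x) + rm d ((hf c d)⁻¹ * hf c x) + u →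
      qf u ≤ 2 * (‖hf c x‖ * ‖hf d x‖) / m := by
    intro x u hx h1 h2 h3
    have h4 : qf x = qf (rm c ((hf d c)⁻¹ * hf d x) + rm d ((hf c d)⁻¹ * hf c x) + u) := by
      rw [← h3]
    have h5 : hf (rm c ((hf d c)⁻¹ * hf d x) + rm d ((hf c d)⁻¹ * hf c x)) u = 0 := by
      rw [hf_add_left, hf_rm_left, hf_rm_left, h1, h2, mul_zero, mul_zero, add_zero]
    rw [hx, qf_add _ u, h5, re_zero, qf_add, qf_rm, qf_rm, hc, hd] at h4
    have h6 := abs_re_le (hf (rm c ((hf d c)⁻¹ * hf d x)) (rm d ((hf c d)⁻¹ * hf c x)))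
    rw [hf_rm_left, hf_rm_right, norm_mul, norm_mul, norm_star', norm_mul, norm_mul, norm_inv,
      norm_inv, hm', ← hmd] at h6
    have h7 := neg_abs_le (re (star ((hf d c)⁻¹ * hf d x) *
      (hf c d * ((hf c d)⁻¹ * hf c x))))
    rw [hf_rm_left, hf_rm_right] at h4
    have h8 : m⁻¹ * ‖hf d x‖ * (m * (m⁻¹ * ‖hf c x‖)) = ‖hf c x‖ * ‖hf d x‖ / m := by
      field_simp
    rw [h8] at h6
    have h9 : 2 * (‖hf c x‖ * ‖hf d x‖) / m = 2 * (‖hf c x‖ * ‖hf d x‖ / m) := by ring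
    rw [h9]
    nlinarith
  have k1 := key a w ha hw1 hw2 hw
  have k2 := key b w' hb hw1' hw2' hw'
  have k3 := cs_null hc hd hcd hw1 hw2 hw1' hw2'
  have q1 := qf_nonneg_of_null hc hd hcd hw1 hw2
  have q2 := qf_nonneg_of_null hc hd hcd hw1' hw2'
  set A := ‖hf c a‖
  set A' := ‖hf d a‖
  set B := ‖hf c b‖
  set B' := ‖hf d b‖
  have hA : 0 ≤ A := norm_nonneg _
  have hA' : 0 ≤ A' := norm_nonneg _
  have hB : 0 ≤ B := norm_nonneg _
  have hB' : 0 ≤ B' := norm_nonneg _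
  have e1 : hf a b = star ((hf d c)⁻¹ * hf d a) * hf c b +
      star ((hf c d)⁻¹ * hf c a) * hf d b + hf w w' := by
    conv_lhs => rw [hw]
    rw [hf_add_left, hf_add_left, hf_rm_left, hf_rm_left]
    congr 1
    conv_lhs => rw [hw']
    rw [hf_add_right, hf_add_right, hf_rm_right, hf_rm_right, ← hf_star c w, ← hf_star d w, hw1,
      hw2]
    simp
  have e2 : ‖hf a b‖ ≤ m⁻¹ * A' * B + m⁻¹ * A * B' + ‖hf w w'‖ := by
    rw [e1]
    refine (norm_add_le _ _).trans (add_le_add_left ((norm_add_le _ _).trans ?_) _)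
    rw [norm_mul, norm_mul, norm_star', norm_star', norm_mul, norm_mul, norm_inv, norm_inv, hm']
  have e3 : ‖hf w w'‖ ≤ 2 * √(A * A' * (B * B')) / m := by
    have h1 : ‖hf w w'‖ ^ 2 ≤ (2 * √(A * A' * (B * B')) / m) ^ 2 := by
      rw [div_pow, mul_pow, Real.sq_sqrt (by positivity)]
      calc _ ≤ _ := k3
        _ ≤ 2 * (A * A') / m * (2 * (B * B') / m) := mul_le_mul k1 k2 q2 (by positivity)
        _ = _ := by ring
    exact le_of_sq_le_sq h1 (by positivity)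
  have e4 : ‖hf a b‖ * m ≤ A * B' + A' * B + 2 * √(A * A' * (B * B')) := by
    have h1 : ‖hf a b‖ ≤ (A * B' + A' * B + 2 * √(A * A' * (B * B'))) / m := by
      refine e2.trans ((add_le_add_right e3 _).trans (le_of_eq ?_))
      field_simp
      ring
    exact (le_div_iff₀ hm).1 h1
  have e5 : (√(A * B') + √(A' * B)) ^ 2 = A * B' + A' * B + 2 * √(A * A' * (B * B')) := by
    rw [add_sq, Real.sq_sqrt (by positivity), Real.sq_sqrt (by positivity), mul_assoc 2,
      ← Real.sqrt_mul (by positivity)]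
    have : A * B' * (A' * B) = A * A' * (B * B') := by ring
    rw [this]
    ring
  rw [norm_hf_comm a c, norm_hf_comm a d]
  refine Real.sqrt_le_iff.2 ⟨by positivity, ?_⟩
  rw [e5]
  exact e4

end Pool.Agent.Helper71.CH
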