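import Pool.Agent.Helper71.CH.Form

/-!
# Project CH: hyperbolic space over a division algebra
-/

set_option autoImplicit false
set_option linter.unusedSectionVars false

open Matrix Real

namespace Pool.Agent.Helper71.CH

variable {K : Type} [NormedDivisionRing K] [NormedAlgebra ℝ K] [StarRing K] [Hur K] {n : ℕ}

theorem one_le_norm_zero {x : V K n} (hx : qf x = -1) : 1 ≤ ‖x 0‖ := by
  rw [qf_eq] at hx
  have h1 := sp_nonneg x
  have h2 := norm_nonneg (x 0)
  nlinarith

theorem zero_ne {x : V K n} (hx : qf x = -1) : x 0 ≠ 0 := by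
  intro h
  have := one_le_norm_zero hx
  rw [h, norm_zero] at this
  linarith

/-- Hyperbolic space of dimension `n` over `K`: the vectors `x` with `hf x x = -1` whose
coordinate `x 0` is a positive real number. -/
def X (K : Type) [NormedDivisionRing K] [NormedAlgebra ℝ K] [StarRing K] [Hur K] (n : ℕ) : Type :=
  {x : V K n // qf x = -1 ∧ x 0 = ‖x 0‖ • (1 : K)}

theorem X.self (x : X K n) : qf x.1 = -1 := x.2.1

theorem X.hf_self (x : X K n) : hf x.1 x.1 = -1 := by
  rw [CH.hf_self, x.self, neg_smul, one_smul]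

/-- The normal form of a vector. -/
noncomputable def nf (x : V K n) : V K n := rm x (ph (x 0))

theorem nf_rm (x : V K n) {a : K} (ha : ‖a‖ = 1) : nf (rm x a) = nf x := by
  unfold nf
  rw [rm_rm, rm_apply, ph_mul _ _ ha, ← mul_assoc, mul_star_eq_one ha, one_mul]

theorem nf_of {x : V K n} (hx : qf x = -1) (h : x 0 = ‖x 0‖ • (1 : K)) : nf x = x := by
  unfold nf
  rw [ph_real h (zero_ne hx), rm_one]

/-- The point of a negative unit vector. -/
noncomputable def mkX (x : V K n) (hx : qf x = -1) : X K n :=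
  ⟨nf x, by
    unfold nf
    rw [qf_rm, norm_ph (zero_ne hx), hx]
    ring, by
    unfold nf
    rw [rm_apply, mul_ph, norm_smul_one, abs_norm]⟩

theorem coe_mkX (x : V K n) (hx : qf x = -1) : (mkX x hx).1 = nf x := rfl

theorem mkX_self (x : X K n) : mkX x.1 x.self = x := Subtype.ext (nf_of x.2.1 x.2.2)

theorem exists_rm (x : V K n) (hx : qf x = -1) : ∃ a : K, ‖a‖ = 1 ∧ (mkX x hx).1 = rm x a :=
  ⟨ph (x 0), norm_ph (zero_ne hx), rfl⟩

theorem mkX_rm (x : V K n) (hx : qf x = -1) {a : K} (ha : ‖a‖ = 1) (hxa : qf (rm x a) = -1) :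
    mkX (rm x a) hxa = mkX x hx := Subtype.ext (nf_rm x ha)

theorem mkX_congr {x y : V K n} (h : x = y) (hx : qf x = -1) (hy : qf y = -1) :
    mkX x hx = mkX y hy := by subst h; rfl

theorem X.ext_rm {x y : X K n} {a : K} (ha : ‖a‖ = 1) (h : y.1 = rm x.1 a) : y = x := by
  rw [← mkX_self x, ← mkX_self y]
  have hxa : qf (rm x.1 a) = -1 := by rw [← h]; exact y.self
  rw [mkX_congr h y.self hxa, mkX_rm x.1 x.self ha]

theorem norm_hf_mkX_left (x : V K n) (hx : qf x = -1) (y : V K n) :
    ‖hf (mkX x hx).1 y‖ = ‖hf x y‖ := by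
  rw [coe_mkX]
  exact norm_hf_rm_left x y (norm_ph (zero_ne hx))

theorem norm_hf_mkX_right (x : V K n) (hx : qf x = -1) (y : V K n) :
    ‖hf y (mkX x hx).1‖ = ‖hf y x‖ := by
  rw [coe_mkX]
  exact norm_hf_rm_right y x (norm_ph (zero_ne hx))

theorem X.one_le (x y : X K n) : 1 ≤ ‖hf x.1 y.1‖ := one_le_hf x.self y.self

noncomputable instance : MetricSpace (X K n) where
  dist x y := arcosh ‖hf x.1 y.1‖
  dist_self x := by
    rw [norm_hf_self, x.self, abs_neg, abs_one]
    exact arcosh_zero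
  dist_comm x y := by rw [norm_hf_comm]
  dist_triangle x y z := by
    have h1 := x.one_le y
    have h2 := y.one_le z
    have h4 : ‖hf x.1 z.1‖ ≤ cosh (arcosh ‖hf x.1 y.1‖ + arcosh ‖hf y.1 z.1‖) := by
      rw [cosh_add, cosh_arcosh h1, cosh_arcosh h2, sinh_arcosh h1, sinh_arcosh h2]
      exact tri x.self y.self z.self
    have h5 : 0 ≤ arcosh ‖hf x.1 y.1‖ + arcosh ‖hf y.1 z.1‖ :=
      add_nonneg (arcosh_nonneg h1) (arcosh_nonneg h2)
    have h3 := x.one_le z
    calc arcosh ‖hf x.1 z.1‖ ≤ arcosh (cosh (arcosh ‖hf x.1 y.1‖ + arcosh ‖hf y.1 z.1‖)) :=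
          (arcosh_le_arcosh (by linarith) (cosh_pos _)).2 h4
      _ = _ := arcosh_cosh h5
  eq_of_dist_eq_zero {x y} h := by
    have h1 := (arcosh_eq_zero_iff (x.one_le y)).1 h
    refine (X.ext_rm (a := -hf x.1 y.1) (by rw [norm_neg, h1]) ?_).symm
    exact eq_of_hf x.self y.self h1

theorem dist_def (x y : X K n) : dist x y = arcosh ‖hf x.1 y.1‖ := rfl

theorem cosh_dist (x y : X K n) : cosh (dist x y) = ‖hf x.1 y.1‖ := by
  rw [dist_def, cosh_arcosh (x.one_le y)]

theorem sinh_sq_dist (x y : X K n) : sinh (dist x y) ^ 2 = ‖hf x.1 y.1‖ ^ 2 - 1 := by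
  rw [sinh_sq, cosh_dist]

theorem dist_le_iff (x y : X K n) {d : ℝ} (hd : 0 ≤ d) : dist x y ≤ d ↔ ‖hf x.1 y.1‖ ≤ cosh d := by
  rw [← cosh_dist, cosh_le_cosh, abs_of_nonneg dist_nonneg, abs_of_nonneg hd]

theorem dist_mkX_left (x : V K n) (hx : qf x = -1) (y : X K n) :
    cosh (dist (mkX x hx) y) = ‖hf x y.1‖ := by
  rw [cosh_dist, norm_hf_mkX_left]

theorem dist_mkX_right (x : V K n) (hx : qf x = -1) (y : X K n) :
    cosh (dist y (mkX x hx)) = ‖hf y.1 x‖ := by
  rw [cosh_dist, norm_hf_mkX_right]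

theorem dist_mkX (x y : V K n) (hx : qf x = -1) (hy : qf y = -1) :
    cosh (dist (mkX x hx) (mkX y hy)) = ‖hf x y‖ := by
  rw [cosh_dist, norm_hf_mkX_left, norm_hf_mkX_right]

theorem dist_eq_of_cosh {x y : X K n} {d : ℝ} (hd : 0 ≤ d) (h : ‖hf x.1 y.1‖ = cosh d) :
    dist x y = d := by
  rw [dist_def, h, arcosh_cosh hd]

/-! ### Matrices -/

/-- Square matrices. -/
abbrev Mat (K : Type) (n : ℕ) : Type := Matrix (Fin (n + 1)) (Fin (n + 1)) K

/-- A matrix preserves the form. -/
def Pres (M : Mat K n) : Prop := ∀ x y : V K n, hf (M *ᵥ x) (M *ᵥ y) = hf x y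

theorem Pres.mul {M N : Mat K n} (hM : Pres M) (hN : Pres N) : Pres (M * N) := by
  intro x y
  rw [← mulVec_mulVec, ← mulVec_mulVec, hM, hN]

theorem Pres.one : Pres (1 : Mat K n) := by
  intro x y
  rw [one_mulVec, one_mulVec]

theorem Pres.qf {M : Mat K n} (hM : Pres M) (x : V K n) : qf (M *ᵥ x) = CH.qf x := by
  unfold CH.qf
  rw [hM]

theorem mulVec_rm (M : Mat K n) (x : V K n) (a : K) : M *ᵥ rm x a = rm (M *ᵥ x) a := by
  funext i
  show ∑ j, M i j * (x j * a) = (∑ j, M i j * x j) * a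
  rw [Finset.sum_mul]
  exact Finset.sum_congr rfl fun j _ => (mul_assoc _ _ _).symm

theorem mulVec_rsmul (M : Mat K n) (x : V K n) (c : ℝ) : M *ᵥ (c • x) = c • (M *ᵥ x) :=
  mulVec_smul M c x

/-- A group acts by matrices which preserve the form. -/
class Rep (G : Type) [Group G] (K : Type) [NormedDivisionRing K] [NormedAlgebra ℝ K] [StarRing K]
    [Hur K] (n : ℕ) where
  mat : G →* Mat K n
  pres : ∀ g : G, Pres (mat g)

variable {G : Type} [Group G]

/-- The linear action. -/
def act [Rep G K n] (g : G) (x : V K n) : V K n := Rep.mat g *ᵥ x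

variable [Rep G K n]

theorem act_mul (g h : G) (x : V K n) : act (g * h) x = act g (act h x) := by
  unfold act
  rw [map_mul, mulVec_mulVec]

theorem act_one (x : V K n) : act (1 : G) x = x := by
  unfold act
  rw [map_one, one_mulVec]

theorem act_add (g : G) (x y : V K n) : act g (x + y) = act g x + act g y := mulVec_add _ _ _

theorem act_sub (g : G) (x y : V K n) : act g (x - y) = act g x - act g y := mulVec_sub _ _ _

theorem act_smul (g : G) (c : ℝ) (x : V K n) : act g (c • x) = c • act g x := mulVec_smul _ _ _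

theorem act_rm (g : G) (x : V K n) (a : K) : act g (rm x a) = rm (act g x) a := mulVec_rm _ _ _

theorem act_inv_act (g : G) (x : V K n) : act g⁻¹ (act g x) = x := by
  rw [← act_mul, inv_mul_cancel, act_one]

theorem act_act_inv (g : G) (x : V K n) : act g (act g⁻¹ x) = x := by
  rw [← act_mul, mul_inv_cancel, act_one]

theorem hf_act (g : G) (x y : V K n) : hf (act g x) (act g y) = hf x y := Rep.pres g x y

theorem qf_act (g : G) (x : V K n) : qf (act g x) = qf x := (Rep.pres g).qf x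

theorem hf_act_inv (g : G) (x y : V K n) : hf (act g⁻¹ x) y = hf x (act g y) := by
  rw [← hf_act g, act_act_inv]

theorem hf_inv_act (g : G) (x y : V K n) : hf x (act g⁻¹ y) = hf (act g x) y := by
  rw [← hf_act g, act_act_inv]

noncomputable instance : MulAction G (X K n) where
  smul g x := mkX (act g x.1) (by rw [qf_act]; exact x.self)
  one_smul x := by
    show mkX (act (1 : G) x.1) _ = x
    rw [mkX_congr (act_one x.1) _ x.self, mkX_self]
  mul_smul g h x := by
    show mkX (act (g * h) x.1) _ = mkX (act g (mkX (act h x.1) _).1) _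
    apply Subtype.ext
    rw [coe_mkX, coe_mkX, act_mul, coe_mkX]
    unfold nf
    rw [act_rm]
    exact (nf_rm _ (norm_ph (zero_ne (by rw [qf_act]; exact x.self)))).symm

theorem smul_def (g : G) (x : X K n) :
    g • x = mkX (act g x.1) (by rw [qf_act]; exact x.self) := rfl

theorem smul_mkX (g : G) (x : V K n) (hx : qf x = -1) :
    g • mkX x hx = mkX (act g x) (by rw [qf_act]; exact hx) := by
  rw [smul_def]
  apply Subtype.ext
  rw [coe_mkX, coe_mkX, coe_mkX]
  unfold nf
  rw [act_rm]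
  exact nf_rm _ (norm_ph (zero_ne hx))

theorem dist_smul' (g : G) (x y : X K n) : dist (g • x) (g • y) = dist x y := by
  rw [dist_def, dist_def, smul_def, smul_def, norm_hf_mkX_left, norm_hf_mkX_right, hf_act]

instance : IsIsometricSMul G (X K n) where
  isometry_smul g := Isometry.of_dist_eq fun x y => dist_smul' g x y

end Pool.Agent.Helper71.CH
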