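import Pool.Agent.Helper71.CH.Hs

/-!
# Project CH: continuity of the form
-/

set_option autoImplicit false
set_option linter.unusedSectionVars false

open Matrix Real Topology

namespace Pool.Agent.Helper71.CH

variable {K : Type} [NormedDivisionRing K] [NormedAlgebra ℝ K] [StarRing K] [Hur K]

theorem re_cont : Continuous (re : K → ℝ) := by
  have : (re : K → ℝ) = Hur.re := rfl
  rw [this]
  refine AddMonoidHomClass.continuous_of_bound (Hur.re : K →ₗ[ℝ] ℝ) 1 fun x => ?_
  rw [one_mul, Real.norm_eq_abs]
  exact abs_re_le x

theorem star_cont : Continuous (star : K → K) := by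
  have : (star : K → K) = fun a => (2 * re a) • (1 : K) - a := funext star_eq
  rw [this]
  exact ((continuous_const.mul re_cont).smul continuous_const).sub continuous_id

theorem hf_cont {P : Type*} [TopologicalSpace P] {n : ℕ} {f g : P → V K n} (hf' : Continuous f)
    (hg : Continuous g) : Continuous fun p => hf (f p) (g p) := by
  unfold hf
  refine (((star_cont.comp ((continuous_apply 0).comp hf')).mul
    ((continuous_apply 0).comp hg)).neg).add ?_
  refine continuous_finsetSum _ fun i _ => ?_
  exact (star_cont.comp ((continuous_apply i.succ).comp hf')).mul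
    ((continuous_apply i.succ).comp hg)

theorem rm_cont {P : Type*} [TopologicalSpace P] {n : ℕ} {f : P → V K n} {g : P → K}
    (hf' : Continuous f) (hg : Continuous g) : Continuous fun p => rm (f p) (g p) :=
  continuous_pi fun i => ((continuous_apply i).comp hf').mul hg

theorem Jv_cont {P : Type*} [TopologicalSpace P] {n : ℕ} {f : P → V K n}
    (hf' : Continuous f) : Continuous fun p => Jv (f p) := by
  refine continuous_pi fun i => ?_
  unfold Jv
  by_cases h : i = 0
  · simp only [h, if_true]
    exact (star_cont.comp ((continuous_apply 0).comp hf')).neg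
  · simp only [h, if_false]
    exact star_cont.comp ((continuous_apply i).comp hf')

theorem rk_cont {P : Type*} [TopologicalSpace P] {n : ℕ} {f g : P → V K n}
    (hf' : Continuous f) (hg : Continuous g) : Continuous fun p => rk (f p) (g p) := by
  refine continuous_pi fun i => continuous_pi fun j => ?_
  show Continuous fun p => f p i * Jv (g p) j
  exact ((continuous_apply i).comp hf').mul ((continuous_apply j).comp (Jv_cont hg))

theorem boM_cont (k : ℕ) : Continuous (boM k : ℝ → Mat K (k + 1)) := by
  have h : (boM k : ℝ → Mat K (k + 1)) = fun τ => 1 +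
      rk e0 ((1 - cosh τ) • e0 + sinh τ • e1) + rk e1 ((-sinh τ) • e0 + (cosh τ - 1) • e1) := rfl
  rw [h]
  refine (Continuous.add (continuous_const (y := (1 : Mat K (k + 1))))
    (rk_cont (f := fun _ : ℝ => (e0 : V K (k + 1))) continuous_const ?_)).add
    (rk_cont (f := fun _ : ℝ => (e1 : V K (k + 1))) continuous_const ?_)
  · exact ((continuous_const.sub continuous_cosh).smul continuous_const).add
      (continuous_sinh.smul continuous_const)
  · exact (continuous_sinh.neg.smul continuous_const).add
      ((continuous_cosh.sub continuous_const).smul continuous_const)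

theorem unM_cont {P : Type*} [TopologicalSpace P] {k : ℕ} {w : P → V K (k + 1)} {z : P → K}
    (hw : Continuous w) (hz : Continuous z) : Continuous fun p => unM (w p) (z p) := by
  unfold unM
  exact ((Continuous.add (continuous_const (y := (1 : Mat K (k + 1))))
    (rk_cont (g := fun _ : P => (xinf : V K (k + 1))) hw continuous_const)).sub
    (rk_cont (f := fun _ : P => (xinf : V K (k + 1))) continuous_const hw)).sub
    (rk_cont (f := fun p : P => rm (xinf : V K (k + 1)) ((1 / 2 : ℝ) • z p))
      (g := fun _ : P => (xinf : V K (k + 1)))
      (rm_cont (f := fun _ : P => (xinf : V K (k + 1))) continuous_const (hz.const_smul _))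
      continuous_const)

end Pool.Agent.Helper71.CH
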